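import Mathlib
import Pool.Agent.X151.MH.Fam
import Pool.Agent.X151.MD.Fam

/-!
# The bilinear inequality for the derivative of the Grunsky coefficients
-/

set_option autoImplicit false

open Complex Topology Filter Metric MeasureTheory Set Polynomial

namespace Pool.Agent.X151.MK

open Pool.Agent.H713R2 Pool.Agent.H713R2.AR Pool.Agent.X151.MH Pool.Agent.X151.MD

/-- The moment of a combination of Faber polynomials. -/
noncomputable def Mf (g : ℂ → ℂ) (ρ : ℝ) (w : ℕ → ℂ) (N : ℕ) : ℝ :=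
  1 / Real.pi * ∫ z in (UU g ρ)ᶜ, ‖(derivative (Qc g w N)).eval z‖ ^ 2

theorem Mf_nonneg (g : ℂ → ℂ) (ρ : ℝ) (w : ℕ → ℂ) (N : ℕ) : 0 ≤ Mf g ρ w N := by
  unfold Mf
  apply mul_nonneg (by have := Real.pi_pos; positivity)
  apply integral_nonneg
  intro z
  positivity

theorem cs_weights {N : ℕ} {p q : ℕ → ℝ} (hp : ∀ j, 0 ≤ p j) (hq : ∀ j, 0 ≤ q j)
    (hpq : ∀ j : ℕ, ((j : ℝ) + 1) ^ 2 = q j * p j) (u b : ℕ → ℂ) :
    ‖∑ j ∈ Finset.range N, ((j : ℂ) + 1) * u j * b j‖ ^ 2 ≤
      (∑ j ∈ Finset.range N, q j * ‖u j‖ ^ 2) * ∑ j ∈ Finset.range N, p j * ‖b j‖ ^ 2 := by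
  have h1 : ‖∑ j ∈ Finset.range N, ((j : ℂ) + 1) * u j * b j‖ ≤
      ∑ j ∈ Finset.range N, (√(q j) * ‖u j‖) * (√(p j) * ‖b j‖) := by
    refine (norm_sum_le _ _).trans (Finset.sum_le_sum fun j _ => le_of_eq ?_)
    have h2 : ‖((j : ℂ) + 1)‖ = (j : ℝ) + 1 := by
      have : ((j : ℂ) + 1) = (((j : ℝ) + 1 : ℝ) : ℂ) := by push_cast; ring
      rw [this, Complex.norm_real, Real.norm_eq_abs, abs_of_nonneg (by positivity)]
    have h3 : √(q j) * √(p j) = (j : ℝ) + 1 := by
      rw [← Real.sqrt_mul (hq j), ← hpq, Real.sqrt_sq (by positivity)]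
    rw [norm_mul, norm_mul, h2, ← h3]
    ring
  have h2 := h1.trans (Real.sum_mul_le_sqrt_mul_sqrt _ _ _)
  have h3 : ∀ j, (√(q j) * ‖u j‖) ^ 2 = q j * ‖u j‖ ^ 2 := fun j => by
    rw [mul_pow, Real.sq_sqrt (hq j)]
  have h4 : ∀ j, (√(p j) * ‖b j‖) ^ 2 = p j * ‖b j‖ ^ 2 := fun j => by
    rw [mul_pow, Real.sq_sqrt (hp j)]
  simp only [h3, h4] at h2
  calc _ ≤ (√(∑ j ∈ Finset.range N, q j * ‖u j‖ ^ 2) *
        √(∑ j ∈ Finset.range N, p j * ‖b j‖ ^ 2)) ^ 2 := pow_le_pow_left₀ (norm_nonneg _) h2 2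
    _ = _ := by
      rw [mul_pow, Real.sq_sqrt (Finset.sum_nonneg fun j _ => by have := hq j; positivity),
        Real.sq_sqrt (Finset.sum_nonneg fun j _ => by have := hp j; positivity)]

/-- The bilinear inequality. -/
theorem bilin {R ρ : ℝ} (hρ : 0 < ρ) (hρR : ρ < R) {g : ℂ → ℂ → ℂ}
    (hg : ∀ t ∈ ball (0 : ℂ) 1, IsExt R (g t))
    (hhol : ∀ n j, DifferentiableOn ℂ (fun t => pc (g t) n j) (ball 0 1))
    (w u : ℕ → ℂ) (N : ℕ) :
    ‖∑ j ∈ Finset.range N, ((j : ℂ) + 1) * u j * deriv (fun t => Bc g w N t j) 0‖ ^ 2 ≤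
      Mf (g 0) ρ w N * Mf (g 0) ρ u N := by
  have h0 : (0 : ℂ) ∈ ball (0 : ℂ) 1 := mem_ball_self one_pos
  have hg0 := hg 0 h0
  have hR : 0 < R := hρ.trans hρR
  set p : ℕ → ℝ := fun j => ((j : ℝ) + 1) * ρ ^ (2 * (j + 1)) with hp
  set q : ℕ → ℝ := fun n => ((n : ℝ) + 1) * (ρ ^ (2 * (n + 1)))⁻¹ with hq
  have hp0 : ∀ j, 0 ≤ p j := fun j => by rw [hp]; positivity
  have hq0 : ∀ j, 0 ≤ q j := fun j => by rw [hq]; positivity
  have hpq : ∀ j : ℕ, ((j : ℝ) + 1) ^ 2 = q j * p j := fun j => by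
    rw [hp, hq]
    have : ρ ^ (2 * (j + 1)) ≠ 0 := pow_ne_zero _ hρ.ne'
    simp only
    field_simp
  have hsW : HasSum (fun j : ℕ => p j * ‖Bc g w N 0 j‖ ^ 2)
      (∑ n ∈ Finset.range N, q n * ‖w n‖ ^ 2 - Mf (g 0) ρ w N) := area_comb hρ hρR hg0 w N
  have hsU : HasSum (fun j : ℕ => p j * ‖Bc g u N 0 j‖ ^ 2)
      (∑ n ∈ Finset.range N, q n * ‖u n‖ ^ 2 - Mf (g 0) ρ u N) := area_comb hρ hρR hg0 u N
  set X : ℂ := ∑ j ∈ Finset.range N, ((j : ℂ) + 1) * u j * deriv (fun t => Bc g w N t j) 0 with hX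
  set P : ℝ := ∑ n ∈ Finset.range N, q n * ‖u n‖ ^ 2 with hP
  have hP0 : 0 ≤ P := Finset.sum_nonneg fun n _ => by have := hq0 n; positivity
  set V : ℕ → ℝ := fun L => ∑ n ∈ Finset.range (L + N), p n * ‖Bc g u N 0 n‖ ^ 2 with hV
  have hV0 : ∀ L, 0 ≤ V L := fun L => Finset.sum_nonneg fun n _ => by have := hp0 n; positivity
  have hVP : ∀ L, V L ≤ P := by
    intro L
    have h1 := sum_le_hasSum (Finset.range (L + N)) (fun n _ => by have := hp0 n; positivity) hsU
    have h2 := Mf_nonneg (g 0) ρ u N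
    exact h1.trans (by linarith)
  have hM0 := Mf_nonneg (g 0) ρ w N
  have key : ∀ L, ‖X‖ ^ 2 ≤ Mf (g 0) ρ w N * (P - V L) := by
    intro L
    by_cases hXz : X = 0
    · rw [hXz, norm_zero, zero_pow two_ne_zero]
      exact mul_nonneg hM0 (by linarith [hVP L])
    have hX0 : 0 < ‖X‖ := norm_pos_iff.mpr hXz
    rcases hP0.eq_or_lt with hPz | hPpos
    · exfalso
      have h1 := cs_weights (N := N) hp0 hq0 hpq u (fun j => deriv (fun t => Bc g w N t j) 0)
      rw [← hX, ← hP, ← hPz, zero_mul] at h1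
      have : 0 < ‖X‖ ^ 2 := by positivity
      linarith
    apply optimise hX0.le (hV0 L) (hVP L) hPpos hM0
    intro s hs
    set ω : ℂ := X / (‖X‖ : ℂ) with hω
    have hXn : (‖X‖ : ℂ) ≠ 0 := by exact_mod_cast hX0.ne'
    have hωn : ‖ω‖ = 1 := by
      rw [hω, norm_div, Complex.norm_real, norm_norm, div_self hX0.ne']
    have hωX : X = ‖X‖ * ω := by rw [hω]; field_simp
    set η : ℕ → ℂ := fun n => (s : ℂ) * ω * ρ ^ (2 * (n + 1)) *
      (starRingEnd ℂ) (Bc g u N 0 n) with hη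
    set α : ℕ → ℂ := fun n => if n < N then w n else 0 with hα
    set f : ℕ → ℂ → ℂ := fun j t => ∑ n ∈ Finset.range (L + N),
      (α n + t * η n) * hb (pc (g t)) (n + 1) (n + 1 + (j + 1)) with hf
    have hγ : ∀ n j, DifferentiableOn ℂ (fun t => hb (pc (g t)) n j) (ball 0 1) :=
      fun n j => hb_differentiableOn hhol n j
    have hfd : ∀ j, DifferentiableOn ℂ (f j) (ball 0 1) := by
      intro j
      apply DifferentiableOn.fun_sum
      intro n _
      exact (by fun_prop : DifferentiableOn ℂ (fun t => α n + t * η n) (ball 0 1)).mul (hγ _ _)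
    have hαsum : ∀ F : ℕ → ℂ, ∑ n ∈ Finset.range (L + N), α n * F n =
        ∑ n ∈ Finset.range N, w n * F n := by
      intro F
      rw [add_comm L N, Finset.sum_range_add]
      have h1 : ∑ x ∈ Finset.range L, α (N + x) * F (N + x) = 0 := by
        apply Finset.sum_eq_zero
        intro x _
        rw [hα]
        simp
      rw [h1, add_zero]
      apply Finset.sum_congr rfl
      intro n hn
      rw [hα]
      simp only
      rw [if_pos (Finset.mem_range.mp hn)]
    have hαsumR : ∑ n ∈ Finset.range (L + N), q n * ‖α n‖ ^ 2 =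
        ∑ n ∈ Finset.range N, q n * ‖w n‖ ^ 2 := by
      rw [add_comm L N, Finset.sum_range_add]
      have h1 : ∑ x ∈ Finset.range L, q (N + x) * ‖α (N + x)‖ ^ 2 = 0 := by
        apply Finset.sum_eq_zero
        intro x _
        rw [hα]
        simp
      rw [h1, add_zero]
      apply Finset.sum_congr rfl
      intro n hn
      rw [hα]
      simp only
      rw [if_pos (Finset.mem_range.mp hn)]
    have hf0 : ∀ j, f j 0 = Bc g w N 0 j := by
      intro j
      rw [hf]
      simp only [zero_mul, add_zero]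
      rw [hαsum]
      rfl
    have hf1 : ∀ j, deriv (f j) 0 = deriv (fun t => Bc g w N t j) 0 +
        ∑ n ∈ Finset.range (L + N), η n * hb (pc (g 0)) (n + 1) (n + 1 + (j + 1)) := by
      intro j
      have h1 : ∀ n ∈ Finset.range (L + N), HasDerivAt
          (fun t => (α n + t * η n) * hb (pc (g t)) (n + 1) (n + 1 + (j + 1)))
          (η n * hb (pc (g 0)) (n + 1) (n + 1 + (j + 1)) +
            α n * deriv (fun t => hb (pc (g t)) (n + 1) (n + 1 + (j + 1))) 0) 0 := by
        intro n _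
        have h2 : HasDerivAt (fun t : ℂ => α n + t * η n) (η n) 0 := by
          simpa using ((hasDerivAt_id (0 : ℂ)).mul_const (η n)).const_add (α n)
        have h3 := ((hγ (n + 1) (n + 1 + (j + 1))).differentiableAt
          (isOpen_ball.mem_nhds h0)).hasDerivAt
        have h4 := h2.mul h3
        refine h4.congr_deriv ?_
        simp
      have h2 := HasDerivAt.fun_sum h1
      have h3 : deriv (fun t => Bc g w N t j) 0 = ∑ n ∈ Finset.range N,
          w n * deriv (fun t => hb (pc (g t)) (n + 1) (n + 1 + (j + 1))) 0 := by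
        have h4 : ∀ n ∈ Finset.range N, HasDerivAt
            (fun t => w n * hb (pc (g t)) (n + 1) (n + 1 + (j + 1)))
            (w n * deriv (fun t => hb (pc (g t)) (n + 1) (n + 1 + (j + 1))) 0) 0 := fun n _ =>
          (((hγ (n + 1) (n + 1 + (j + 1))).differentiableAt
            (isOpen_ball.mem_nhds h0)).hasDerivAt).const_mul (w n)
        exact (HasDerivAt.fun_sum h4).deriv
      rw [h2.deriv, Finset.sum_add_distrib, hαsum, h3, add_comm]
    -- the averaged inequality, for large `J`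
    have hJ : ∀ J, N ≤ J → ∑ j ∈ Finset.range J, p j * ‖Bc g w N 0 j‖ ^ 2 +
        ∑ j ∈ Finset.range N, p j * ‖deriv (f j) 0‖ ^ 2 ≤
        ∑ n ∈ Finset.range N, q n * ‖w n‖ ^ 2 +
          ∑ n ∈ Finset.range (L + N), q n * ‖η n‖ ^ 2 := by
      intro J hJN
      have h1 := average (p := p) (q := q) (J := J) (N := L + N) hp0 hfd (α := α) (η := η)
        (fun t ht => area_ineq hρ hρR (hg t ht) (fun n => α n + t * η n) (L + N) J)
      simp only [mul_add] at h1
      rw [Finset.sum_add_distrib, Finset.sum_add_distrib, hαsumR] at h1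
      refine le_trans ?_ h1
      simp only [hf0]
      apply add_le_add_right
      exact Finset.sum_le_sum_of_subset_of_nonneg (Finset.range_mono hJN)
        fun j _ _ => by have := hp0 j; positivity
    have hlim : ∑ j ∈ Finset.range N, p j * ‖deriv (f j) 0‖ ^ 2 ≤
        Mf (g 0) ρ w N + ∑ n ∈ Finset.range (L + N), q n * ‖η n‖ ^ 2 := by
      have h1 := (hsW.tendsto_sum_nat).add_const (∑ j ∈ Finset.range N, p j * ‖deriv (f j) 0‖ ^ 2)
      have h2 := le_of_tendsto h1 (by
        filter_upwards [eventually_ge_atTop N] with J hJN using hJ J hJN)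
      linarith
    have hηn : ∑ n ∈ Finset.range (L + N), q n * ‖η n‖ ^ 2 = s ^ 2 * V L := by
      rw [hV]
      simp only
      rw [Finset.mul_sum]
      apply Finset.sum_congr rfl
      intro n _
      have h1 : ‖η n‖ = s * ρ ^ (2 * (n + 1)) * ‖Bc g u N 0 n‖ := by
        rw [hη]
        simp only
        rw [norm_mul, norm_mul, norm_mul, hωn, norm_pow, Complex.norm_real, Complex.norm_real,
          RCLike.norm_conj, Real.norm_eq_abs, Real.norm_eq_abs, abs_of_pos hρ, abs_of_nonneg hs,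
          mul_one]
      rw [h1, hp, hq]
      simp only
      have h2 : ρ ^ (2 * (n + 1)) ≠ 0 := pow_ne_zero _ hρ.ne'
      field_simp
    rw [hηn] at hlim
    -- the value of the pairing
    have hpair : ∑ j ∈ Finset.range N, ((j : ℂ) + 1) * u j * deriv (f j) 0 =
        ((‖X‖ + s * V L : ℝ) : ℂ) * ω := by
      simp only [hf1, mul_add]
      rw [Finset.sum_add_distrib, ← hX]
      have h1 : ∑ j ∈ Finset.range N, ((j : ℂ) + 1) * u j *
          ∑ n ∈ Finset.range (L + N), η n * hb (pc (g 0)) (n + 1) (n + 1 + (j + 1)) =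
          ∑ n ∈ Finset.range (L + N), η n * (((n : ℂ) + 1) * Bc g u N 0 n) := by
        simp only [Finset.mul_sum]
        rw [Finset.sum_comm]
        apply Finset.sum_congr rfl
        intro n _
        unfold Bc
        rw [Finset.mul_sum, Finset.mul_sum]
        apply Finset.sum_congr rfl
        intro j _
        have h2 := hb_symm hR hg0 (show 1 ≤ j + 1 by omega) (show 1 ≤ n + 1 by omega)
        push_cast at h2
        rw [show n + 1 + (j + 1) = (j + 1) + (n + 1) by ring]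
        linear_combination (u j * η n) * h2
      rw [h1]
      have h3 : ∀ n, η n * (((n : ℂ) + 1) * Bc g u N 0 n) =
          (s : ℂ) * ω * ((p n * ‖Bc g u N 0 n‖ ^ 2 : ℝ) : ℂ) := by
        intro n
        have h4 : ((‖Bc g u N 0 n‖ ^ 2 : ℝ) : ℂ) =
            (starRingEnd ℂ) (Bc g u N 0 n) * Bc g u N 0 n := by
          rw [Complex.sq_norm, Complex.normSq_eq_conj_mul_self]
        rw [Complex.ofReal_mul, h4, hη, hp]
        push_cast
        ring
      simp only [h3]
      rw [← Finset.mul_sum, ← Complex.ofReal_sum]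
      rw [show (∑ i ∈ Finset.range (L + N), p i * ‖Bc g u N 0 i‖ ^ 2) = V L from rfl]
      conv_lhs => rw [hωX]
      push_cast
      ring
    have hcs := cs_weights (N := N) hp0 hq0 hpq u (fun j => deriv (f j) 0)
    rw [hpair, norm_mul, hωn, mul_one, Complex.norm_real, Real.norm_eq_abs, ← hP,
      abs_of_nonneg (by have := hV0 L; positivity)] at hcs
    exact hcs.trans (mul_le_mul_of_nonneg_left hlim hP0)
  have htV : Tendsto V atTop (𝓝 (P - Mf (g 0) ρ u N)) :=
    (hsU.tendsto_sum_nat).comp (tendsto_add_atTop_nat N)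
  have h1 : Tendsto (fun L => Mf (g 0) ρ w N * (P - V L)) atTop
      (𝓝 (Mf (g 0) ρ w N * (P - (P - Mf (g 0) ρ u N)))) := (htV.const_sub P).const_mul _
  have h2 := ge_of_tendsto' h1 key
  rwa [sub_sub_cancel] at h2

end Pool.Agent.X151.MK
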