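import Mathlib
import Pool.Agent.X151.MK.Bil
import Pool.Agent.H713R2.Ident

/-!
# The generating function of the Faber polynomials
-/

set_option autoImplicit false

open Complex Topology Filter Metric MeasureTheory Set Polynomial

namespace Pool.Agent.X151.MK

open Pool.Agent.H713R2 Pool.Agent.H713R2.AR Pool.Agent.X151.MH Pool.Agent.X151.MD

theorem tc_pow_mul_low {F : ℂ → ℂ} {r : ℝ} (hr : 0 < r) (hF : DifferentiableOn ℂ F (ball 0 r))
    (m : ℕ) : ∀ k < m, tc (fun x => x ^ m * F x) k = 0 := by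
  induction m with
  | zero => intro k hk; omega
  | succ m ih =>
    intro k hk
    have h1 : (fun x => x ^ (m + 1) * F x) = fun x => x * (x ^ m * F x) := by
      funext x; rw [pow_succ]; ring
    rw [h1]
    have h2 : DifferentiableOn ℂ (fun x => x ^ m * F x) (ball 0 r) := (differentiableOn_pow m).mul hF
    cases k with
    | zero => rw [tc_zero, zero_mul]
    | succ k =>
      rw [tc_id_mul hr h2]
      exact ih k (by omega)

theorem tc_pow_mul {F : ℂ → ℂ} {r : ℝ} (hr : 0 < r) (hF : DifferentiableOn ℂ F (ball 0 r))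
    (m k : ℕ) : tc (fun x => x ^ m * F x) (m + k) = tc F k := by
  induction m with
  | zero => simp
  | succ m ih =>
    have h1 : (fun x => x ^ (m + 1) * F x) = fun x => x * (x ^ m * F x) := by
      funext x; rw [pow_succ]; ring
    have h2 : DifferentiableOn ℂ (fun x => x ^ m * F x) (ball 0 r) := (differentiableOn_pow m).mul hF
    rw [h1, show m + 1 + k = (m + k) + 1 by ring, tc_id_mul hr h2, ih]

/-- The product with a Faber function does not change the low coefficients. -/
theorem tc_mul_Hb {R s : ℝ} (hs : 0 < s) (hsR : s ≤ R) {g : ℂ → ℂ} (hg : IsExt R g)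
    {F : ℂ → ℂ} (hF : DifferentiableOn ℂ F (ball 0 s)) {n k : ℕ} (hk : k < n + 1) :
    tc (fun x => Hb g (pc g) n x * F x) k = tc F k := by
  have hR : 0 < R := hs.trans_le hsR
  have hB : DifferentiableOn ℂ (Hb g (pc g) n) (ball 0 s) :=
    (Hb_diff hg.diff _ n).mono (ball_subset_ball hsR)
  rw [tc_mul hs hB hF, Finset.sum_eq_single (0, k)]
  · rw [Hb_tc hR hg.diff, hb_zero (pc_zero hg), one_mul]
  · rintro ⟨i, j⟩ hij hne
    rw [Finset.HasAntidiagonal.mem_antidiagonal] at hij
    simp only at hij ⊢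
    have hi : 1 ≤ i := by
      by_contra hcon
      have h0 : i = 0 := by omega
      apply hne
      rw [h0] at hij ⊢
      rw [zero_add] at hij
      rw [hij]
    rw [Hb_tc hR hg.diff, hb_vanish (pc_zero hg) n i hi (by omega), zero_mul]
  · intro h
    exact absurd (Finset.HasAntidiagonal.mem_antidiagonal.mpr (zero_add k)) h

theorem psi_deriv {R : ℝ} {g : ℂ → ℂ} (hg : IsExt R g) {x : ℂ} (hx : x ∈ ball (0 : ℂ) R)
    (hx0 : x ≠ 0) : HasDerivAt (fun x => x⁻¹ * g x) (-(x ^ 2)⁻¹ * g x + x⁻¹ * deriv g x) x := by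
  have h1 := (hasDerivAt_inv hx0).mul (hg.diff.differentiableAt (isOpen_ball.mem_nhds hx)).hasDerivAt
  exact h1

/-- The residue of an exact differential. -/
theorem res_zero {R s : ℝ} (hs : 0 < s) (hsR : s ≤ R) {g : ℂ → ℂ} (hg : IsExt R g) (P : ℂ[X])
    {F : ℂ → ℂ} (hF : DifferentiableOn ℂ F (ball 0 s)) {n : ℕ}
    (h : ∀ x ∈ ball (0 : ℂ) s, x ≠ 0 → F x / x ^ (n + 1) =
      P.eval (x⁻¹ * g x) * (-(x ^ 2)⁻¹ * g x + x⁻¹ * deriv g x)) : tc F n = 0 := by
  obtain ⟨A, hA⟩ := Pool.Agent.H713R2.AR.exists_antideriv P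
  have hs2 : 0 < s / 2 := by linarith
  have h1 := circleIntegral_tc hs2 (by linarith) hF n
  have h2 : ∮ z in C(0, s / 2), F z / z ^ (n + 1) = 0 := by
    apply circleIntegral.integral_eq_zero_of_hasDerivWithinAt' (f := fun z => A.eval (z⁻¹ * g z))
    intro z hz
    have hzn : ‖z‖ = s / 2 := by
      rw [mem_sphere_zero_iff_norm, abs_of_pos hs2] at hz; exact hz
    have hz0 : z ≠ 0 := by
      rw [← norm_pos_iff, hzn]; exact hs2
    have hzs : z ∈ ball (0 : ℂ) s := by rw [mem_ball_zero_iff, hzn]; linarith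
    apply HasDerivAt.hasDerivWithinAt
    have h3 : HasDerivAt (fun z => A.eval (z⁻¹ * g z))
        ((derivative A).eval (z⁻¹ * g z) * (-(z ^ 2)⁻¹ * g z + z⁻¹ * deriv g z)) z :=
      HasDerivAt.comp z (h₂ := fun w => A.eval w) (h := fun z => z⁻¹ * g z)
        (A.hasDerivAt (z⁻¹ * g z)) (psi_deriv hg (ball_subset_ball hsR hzs) hz0)
    rw [hA, ← h z hzs hz0] at h3
    exact h3
  rw [h2] at h1
  have h3 : (2 * Real.pi * I : ℂ) ≠ 0 := by simp [Real.pi_ne_zero]
  exact (mul_eq_zero.mp h1.symm).resolve_left h3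

/-- The point `z` is not taken on the punctured disc. -/
def Omit (g : ℂ → ℂ) (s : ℝ) (z : ℂ) : Prop := ∀ x ∈ ball (0 : ℂ) s, x ≠ 0 → x⁻¹ * g x ≠ z

theorem Omit.ne {g : ℂ → ℂ} {s : ℝ} {z : ℂ} (h : Omit g s z) (h0 : g 0 = 1) :
    ∀ x ∈ ball (0 : ℂ) s, g x - x * z ≠ 0 := by
  intro x hx h1
  by_cases hx0 : x = 0
  · rw [hx0, h0] at h1
    simp at h1
  · apply h x hx hx0
    have h2 : g x = x * z := by linear_combination h1
    rw [h2]
    field_simp

/-- The Faber polynomials as Taylor coefficients. -/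
theorem faber_eval {R s : ℝ} (hs : 0 < s) (hsR : s ≤ R) {g : ℂ → ℂ} (hg : IsExt R g) {z : ℂ}
    (hz : Omit g s z) (n : ℕ) :
    (Fb (pc g) (n + 1)).eval z =
      -tc (fun x => deriv (fun x => g x - x * z) x / (g x - x * z)) n := by
  set D : ℂ → ℂ := fun x => g x - x * z with hD
  have hgd : DifferentiableOn ℂ g (ball 0 s) := hg.diff.mono (ball_subset_ball hsR)
  have hDd : DifferentiableOn ℂ D (ball 0 s) := hgd.sub (by fun_prop)
  have hD0 : ∀ x ∈ ball (0 : ℂ) s, D x ≠ 0 := hz.ne hg.zero
  set l : ℂ → ℂ := fun x => deriv D x / D x with hl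
  have hld : DifferentiableOn ℂ l (ball 0 s) := (hDd.deriv isOpen_ball).div hDd hD0
  have hDder : ∀ x ∈ ball (0 : ℂ) s, deriv D x = deriv g x - z := by
    intro x hx
    have h1 : HasDerivAt D (deriv g x - 1 * z) x :=
      (hgd.differentiableAt (isOpen_ball.mem_nhds hx)).hasDerivAt.sub
        ((hasDerivAt_id x).mul_const z)
    rw [h1.deriv, one_mul]
  set B : ℂ → ℂ := Hb g (pc g) (n + 1) with hB
  have hBd : DifferentiableOn ℂ B (ball 0 s) :=
    (Hb_diff hg.diff _ (n + 1)).mono (ball_subset_ball hsR)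
  obtain ⟨P, hP⟩ : (X - C z) ∣ (Fb (pc g) (n + 1) - C ((Fb (pc g) (n + 1)).eval z)) := by
    rw [Polynomial.dvd_iff_isRoot, Polynomial.IsRoot.def, eval_sub, eval_C, sub_self]
  set F0 : ℂ := (Fb (pc g) (n + 1)).eval z with hF0
  have hPe : ∀ y, (Fb (pc g) (n + 1)).eval y - F0 = (y - z) * P.eval y := by
    intro y
    have := congrArg (fun Q => Polynomial.eval y Q) hP
    simpa using this
  -- the function
  have h1 : tc (fun x => x * (B x * l x) - B x - (x ^ (n + 2) * (F0 * l x)) +
      x ^ (n + 1) * F0) (n + 1) = 0 := by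
    apply res_zero hs hsR hg P
    · exact (((differentiableOn_id.mul (hBd.mul hld)).sub hBd).sub
        ((differentiableOn_pow _).mul (hld.const_mul F0))).add
        ((differentiableOn_pow _).mul (differentiableOn_const _))
    · intro x hx hx0
      have h2 := hPe (x⁻¹ * g x)
      have h3 := Hb_eval g (pc g) hx0 (n + 1)
      rw [← hB] at h3
      have h4 := hD0 x hx
      have h5 : x⁻¹ * g x - z = D x / x := by rw [hD]; field_simp
      have h6 : (Fb (pc g) (n + 1)).eval (x⁻¹ * g x) = B x / x ^ (n + 1) := by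
        rw [h3]; field_simp
      rw [h6, h5] at h2
      have h7 : P.eval (x⁻¹ * g x) = (B x / x ^ (n + 1) - F0) * x / D x := by
        field_simp at h2 ⊢
        linear_combination -h2
      have h8 : deriv g x = deriv D x + z := by rw [hDder x hx]; ring
      have h9 : g x = D x + x * z := by rw [hD]; ring
      rw [h7, h8, h9]
      simp only [hl]
      generalize deriv D x = d'
      generalize D x = d at h4
      generalize B x = b
      have h10 : x ^ (n + 2) = x ^ n * x ^ 2 := by rw [pow_add]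
      have h11 : x ^ (n + 1) = x ^ n * x := by rw [pow_succ]
      rw [show n + 1 + 1 = n + 2 by rfl, h10, h11]
      have h12 : x ^ n ≠ 0 := pow_ne_zero _ hx0
      generalize x ^ n = y at h12
      field_simp
      ring
  have k1 : DifferentiableOn ℂ (fun x => B x * l x) (ball 0 s) := hBd.mul hld
  have k2 : DifferentiableOn ℂ (fun x => x * (B x * l x)) (ball 0 s) := differentiableOn_id.mul k1
  have k3 : DifferentiableOn ℂ (fun x => x * (B x * l x) - B x) (ball 0 s) := k2.sub hBd
  have k4 : DifferentiableOn ℂ (fun x => x ^ (n + 2) * (F0 * l x)) (ball 0 s) :=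
    (differentiableOn_pow _).mul (hld.const_mul F0)
  have k5 : DifferentiableOn ℂ (fun x => x * (B x * l x) - B x - x ^ (n + 2) * (F0 * l x))
    (ball 0 s) := k3.sub k4
  have k6 : DifferentiableOn ℂ (fun x => x ^ (n + 1) * F0) (ball 0 s) :=
    (differentiableOn_pow _).mul (differentiableOn_const _)
  rw [tc_add hs k5 k6, tc_sub hs k3 k4, tc_sub hs k2 hBd, tc_id_mul hs k1,
    tc_mul_Hb hs hsR hg hld (by omega), tc_pow_mul_low hs (hld.const_mul F0) (n + 2) (n + 1)
      (by omega)] at h1
  · have h2 : tc B (n + 1) = 0 := by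
      rw [hB, Hb_tc (hs.trans_le hsR) hg.diff]
      exact hb_vanish (pc_zero hg) (n + 1) (n + 1) (by omega) le_rfl
    have h3 : tc (fun x => x ^ (n + 1) * F0) (n + 1) = F0 := by
      have h4 := tc_pow_mul hs (F := fun _ => F0) (differentiableOn_const _) (n + 1) 0
      rw [add_zero, tc_zero] at h4
      exact h4
    rw [h2, h3] at h1
    linear_combination h1

/-- The derivatives of the Faber polynomials as Taylor coefficients. -/
theorem faber_deriv {R s : ℝ} (hs : 0 < s) (hsR : s ≤ R) {g : ℂ → ℂ} (hg : IsExt R g) {z : ℂ}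
    (hz : Omit g s z) (n : ℕ) :
    (derivative (Fb (pc g) (n + 1))).eval z = (n + 1) * tc (fun x => x / (g x - x * z)) (n + 1) := by
  set D : ℂ → ℂ := fun x => g x - x * z with hD
  have hgd : DifferentiableOn ℂ g (ball 0 s) := hg.diff.mono (ball_subset_ball hsR)
  have hDd : DifferentiableOn ℂ D (ball 0 s) := hgd.sub (by fun_prop)
  have hD0 : ∀ x ∈ ball (0 : ℂ) s, D x ≠ 0 := hz.ne hg.zero
  set κ : ℂ → ℂ := fun x => x / D x with hκ
  have hκd : DifferentiableOn ℂ κ (ball 0 s) := differentiableOn_id.div hDd hD0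
  have hκ'd : DifferentiableOn ℂ (deriv κ) (ball 0 s) := hκd.deriv isOpen_ball
  have hκder : ∀ x ∈ ball (0 : ℂ) s, deriv κ x = (D x - x * (deriv g x - z)) / D x ^ 2 := by
    intro x hx
    have h1 : HasDerivAt D (deriv g x - 1 * z) x :=
      (hgd.differentiableAt (isOpen_ball.mem_nhds hx)).hasDerivAt.sub
        ((hasDerivAt_id x).mul_const z)
    have h2 := (hasDerivAt_id x).div h1 (hD0 x hx)
    have h3 : deriv κ x = _ := h2.deriv
    rw [h3]
    simp
  set l : ℂ → ℂ := fun x => (deriv g x - z) / D x with hl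
  have hld : DifferentiableOn ℂ l (ball 0 s) :=
    ((hgd.deriv isOpen_ball).sub (differentiableOn_const _)).div hDd hD0
  set B : ℂ → ℂ := Hb g (pc g) (n + 1) with hB
  have hBd : DifferentiableOn ℂ B (ball 0 s) :=
    (Hb_diff hg.diff _ (n + 1)).mono (ball_subset_ball hsR)
  set F0 : ℂ := (Fb (pc g) (n + 1)).eval z with hF0
  set F1 : ℂ := (derivative (Fb (pc g) (n + 1))).eval z with hF1
  obtain ⟨P1, hP1⟩ : (X - C z) ∣ (Fb (pc g) (n + 1) - C F0) := by
    rw [Polynomial.dvd_iff_isRoot, Polynomial.IsRoot.def, eval_sub, eval_C, sub_self]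
  have hP1z : P1.eval z = F1 := by
    have h1 := congrArg (fun Q => Polynomial.eval z (derivative Q)) hP1
    simp only [derivative_sub, derivative_C, sub_zero, derivative_mul, derivative_X, one_mul,
      eval_add, eval_mul, eval_sub, eval_X, eval_C, sub_self, zero_mul, add_zero] at h1
    rw [← hF1] at h1
    exact h1.symm
  obtain ⟨P, hP⟩ : (X - C z) ∣ (P1 - C F1) := by
    rw [Polynomial.dvd_iff_isRoot, Polynomial.IsRoot.def, eval_sub, eval_C, hP1z, sub_self]
  have hPe : ∀ y, (Fb (pc g) (n + 1)).eval y - F0 - F1 * (y - z) = (y - z) ^ 2 * P.eval y := by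
    intro y
    have e1 := congrArg (fun Q => Polynomial.eval y Q) hP1
    have e2 := congrArg (fun Q => Polynomial.eval y Q) hP
    simp only [eval_sub, eval_mul, eval_X, eval_C] at e1 e2
    linear_combination e1 + (y - z) * e2
  -- the function
  have h1 : tc (fun x => -(B x * deriv κ x) + (x ^ (n + 1) * (F0 * deriv κ x)) +
      (x ^ n * (F1 * (1 - x * l x)))) n = 0 := by
    apply res_zero hs hsR hg P
    · refine ((hBd.mul hκ'd).neg.add ((differentiableOn_pow _).mul (hκ'd.const_mul F0))).add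
        ((differentiableOn_pow _).mul ((DifferentiableOn.sub (differentiableOn_const _)
          (differentiableOn_id.mul hld)).const_mul F1))
    · intro x hx hx0
      have h2 := hPe (x⁻¹ * g x)
      have h3 := Hb_eval g (pc g) hx0 (n + 1)
      rw [← hB] at h3
      have h4 := hD0 x hx
      have h5 : x⁻¹ * g x - z = D x / x := by rw [hD]; field_simp
      have h6 : (Fb (pc g) (n + 1)).eval (x⁻¹ * g x) = B x / x ^ (n + 1) := by
        rw [h3]; field_simp
      rw [h6, h5] at h2
      have h7 : P.eval (x⁻¹ * g x) = (B x / x ^ (n + 1) - F0 - F1 * (D x / x)) * x ^ 2 / D x ^ 2 := by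
        rw [h2]
        field_simp
      have h9 : g x = D x + x * z := by rw [hD]; ring
      rw [h7, hκder x hx, h9]
      simp only [hl]
      generalize deriv g x = d'
      generalize D x = d at h4
      generalize B x = b
      have h11 : x ^ (n + 1) = x ^ n * x := by rw [pow_succ]
      rw [h11]
      have h12 : x ^ n ≠ 0 := pow_ne_zero _ hx0
      generalize x ^ n = y at h12
      field_simp
      ring
  have hd1 : DifferentiableOn ℂ (fun x => -(B x * deriv κ x)) (ball 0 s) := (hBd.mul hκ'd).neg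
  have hd2 : DifferentiableOn ℂ (fun x => x ^ (n + 1) * (F0 * deriv κ x)) (ball 0 s) :=
    (differentiableOn_pow _).mul (hκ'd.const_mul F0)
  have hd4 : DifferentiableOn ℂ (fun x => F1 * (1 - x * l x)) (ball 0 s) :=
    (DifferentiableOn.sub (differentiableOn_const _) (differentiableOn_id.mul hld)).const_mul F1
  have hd3 : DifferentiableOn ℂ (fun x => x ^ n * (F1 * (1 - x * l x))) (ball 0 s) :=
    (differentiableOn_pow _).mul hd4
  have hd5 : DifferentiableOn ℂ (fun x => -(B x * deriv κ x) + x ^ (n + 1) * (F0 * deriv κ x))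
    (ball 0 s) := hd1.add hd2
  rw [tc_add hs hd5 hd3, tc_add hs hd1 hd2,
    tc_pow_mul_low hs (hκ'd.const_mul F0) (n + 1) n (by omega)] at h1
  have h2 : tc (fun x => x ^ n * (F1 * (1 - x * l x))) n = F1 := by
    have h3 := tc_pow_mul hs hd4 n 0
    rw [add_zero, tc_zero] at h3
    rw [h3]
    ring
  have h3 : tc (fun x => -(B x * deriv κ x)) n = -tc (deriv κ) n := by
    have h4 : (fun x => -(B x * deriv κ x)) = fun x => 0 - B x * deriv κ x := by
      funext x; ring
    have h6 : DifferentiableOn ℂ (fun x => B x * deriv κ x) (ball 0 s) := hBd.mul hκ'd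
    rw [h4, tc_sub hs (differentiableOn_const _) h6,
      tc_mul_Hb hs hsR hg hκ'd (by omega)]
    have h5 : tc (fun _ : ℂ => (0 : ℂ)) n = 0 := by
      cases n with
      | zero => rw [tc_zero]
      | succ n => exact tc_const_succ 0 n
    rw [h5, zero_sub]
  rw [h2, h3, tc_deriv] at h1
  linear_combination h1

end Pool.Agent.X151.MK
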