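import Mathlib
import Pool.Agent.X151.MK.Gen
import Pool.Agent.H712R2.Par

/-!
# The kernel and the logarithm
-/

set_option autoImplicit false

open Complex Topology Filter Metric MeasureTheory Set Polynomial

namespace Pool.Agent.X151.MK

open Pool.Agent.H713R2 Pool.Agent.H713R2.AR Pool.Agent.X151.MH Pool.Agent.X151.MD

theorem tc_congr {F G : ℂ → ℂ} (h : F =ᶠ[𝓝 0] G) (k : ℕ) : tc F k = tc G k := by
  unfold tc
  rw [h.iteratedDeriv_eq k]

/-- The logarithmic generating function. -/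
theorem gen_log {R s : ℝ} (hs : 0 < s) (hsR : s ≤ R) {g : ℂ → ℂ} (hg : IsExt R g) {z : ℂ}
    (hz : Omit g s z) {x : ℂ} (hx : x ∈ ball (0 : ℂ) s) :
    ∃ e : ℂ, HasSum (fun n : ℕ => x ^ (n + 1) / (n + 1) * (Fb (pc g) (n + 1)).eval z) e ∧
      Complex.exp (-e) = g x - x * z := by
  set D : ℂ → ℂ := fun x => g x - x * z with hD
  have hgd : DifferentiableOn ℂ g (ball 0 s) := hg.diff.mono (ball_subset_ball hsR)
  have hDd : DifferentiableOn ℂ D (ball 0 s) := hgd.sub (by fun_prop)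
  have hD0 : ∀ x ∈ ball (0 : ℂ) s, D x ≠ 0 := hz.ne hg.zero
  obtain ⟨l, hl1, hl2, hl3⟩ := Pool.Agent.H712R2.M.exists_log_ball hs hDd hD0 0 (by
    rw [Complex.exp_zero, hD]; simp only; rw [hg.zero, zero_mul, sub_zero])
  have hsum := hasSum_tc hl1 hx
  rw [← hasSum_nat_add_iff' 1, Finset.sum_range_one, pow_zero, mul_one, tc_zero, hl2,
    sub_zero] at hsum
  refine ⟨-l x, ?_, ?_⟩
  · have h1 := hsum.neg
    convert! h1 using 1
    funext n
    have h2 : tc (deriv l) n = -(Fb (pc g) (n + 1)).eval z := by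
      rw [faber_eval hs hsR hg hz n, neg_neg]
      apply tc_congr
      filter_upwards [ball_mem_nhds (0 : ℂ) hs] with y hy
      have h3 : (fun x => Complex.exp (l x)) =ᶠ[𝓝 y] D := by
        filter_upwards [isOpen_ball.mem_nhds hy] with w hw using hl3 w hw
      have h4 : HasDerivAt l (deriv l y) y :=
        (hl1.differentiableAt (isOpen_ball.mem_nhds hy)).hasDerivAt
      have h5 := h3.deriv_eq
      rw [h4.cexp.deriv, hl3 y hy] at h5
      rw [← h5, mul_div_cancel_left₀ _ (hD0 y hy)]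
    rw [tc_deriv] at h2
    have h3 : ((n : ℂ) + 1) ≠ 0 := by exact_mod_cast Nat.succ_ne_zero n
    have h4 : (Fb (pc g) (n + 1)).eval z = -(((n : ℂ) + 1) * tc l (n + 1)) := by rw [h2]; ring
    rw [h4]
    field_simp
  · rw [neg_neg, hl3 x hx]

/-- The kernel. -/
theorem gen_ker {R s : ℝ} (hs : 0 < s) (hsR : s ≤ R) {g : ℂ → ℂ} (hg : IsExt R g) {z : ℂ}
    (hz : Omit g s z) {x : ℂ} (hx : x ∈ ball (0 : ℂ) s) :
    HasSum (fun n : ℕ => x ^ (n + 1) / (n + 1) * (derivative (Fb (pc g) (n + 1))).eval z)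
      (x / (g x - x * z)) := by
  have hgd : DifferentiableOn ℂ g (ball 0 s) := hg.diff.mono (ball_subset_ball hsR)
  have hDd : DifferentiableOn ℂ (fun x => g x - x * z) (ball 0 s) := hgd.sub (by fun_prop)
  have hD0 : ∀ x ∈ ball (0 : ℂ) s, g x - x * z ≠ 0 := hz.ne hg.zero
  have hκd : DifferentiableOn ℂ (fun x => x / (g x - x * z)) (ball 0 s) :=
    differentiableOn_id.div hDd hD0
  have hsum := hasSum_tc hκd hx
  rw [← hasSum_nat_add_iff' 1, Finset.sum_range_one, pow_zero, mul_one, tc_zero, zero_div,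
    sub_zero] at hsum
  convert! hsum using 1
  funext n
  rw [faber_deriv hs hsR hg hz n]
  have h3 : ((n : ℂ) + 1) ≠ 0 := by exact_mod_cast Nat.succ_ne_zero n
  generalize tc (fun x => x / (g x - x * z)) (n + 1) = τ
  field_simp

theorem omit_of_compl {g : ℂ → ℂ} {ρ : ℝ} {z : ℂ} (hz : z ∈ (UU g ρ)ᶜ) : Omit g ρ z := by
  intro x hx hx0 h
  exact hz ⟨x, ⟨hx0, mem_ball_zero_iff.mp hx⟩, h⟩

theorem isCompact_compl {R ρ : ℝ} {g : ℂ → ℂ} (hg : IsExt R g) (hρ : 0 < ρ) (hρR : ρ ≤ R) :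
    IsCompact (UU g ρ)ᶜ := by
  obtain ⟨S, -, hS⟩ := exists_large hg hρ hρR
  apply Metric.isCompact_of_isClosed_isBounded (isOpen_UU hg hρR).isClosed_compl
  rw [isBounded_iff_forall_norm_le]
  refine ⟨S, fun z hz => ?_⟩
  by_contra hcon
  push Not at hcon
  exact hz (hS z hcon)

/-- A uniform bound for the terms of the kernel. -/
theorem ker_bound {R ρ s : ℝ} (hs : 0 < s) (hsρ : s < ρ) (hρR : ρ ≤ R) {g : ℂ → ℂ}
    (hg : IsExt R g) : ∃ M : ℝ, 0 ≤ M ∧ ∀ z ∈ (UU g ρ)ᶜ, ∀ n : ℕ,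
      ‖(derivative (Fb (pc g) (n + 1))).eval z‖ ≤ (n + 1) * (M * (s ^ (n + 1))⁻¹) := by
  have hρ : 0 < ρ := hs.trans hsρ
  have hcomp : IsCompact ((UU g ρ)ᶜ ×ˢ closedBall (0 : ℂ) s) :=
    (isCompact_compl hg hρ hρR).prod (isCompact_closedBall 0 s)
  have hsub : closedBall (0 : ℂ) s ⊆ ball 0 ρ := closedBall_subset_ball hsρ
  have hcont : ContinuousOn (fun p : ℂ × ℂ => p.2 / (g p.2 - p.2 * p.1))
      ((UU g ρ)ᶜ ×ˢ closedBall (0 : ℂ) s) := by
    apply ContinuousOn.div continuousOn_snd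
    · apply ContinuousOn.sub
      · have h1 : ContinuousOn g (ball 0 R) := hg.diff.continuousOn
        exact h1.comp continuousOn_snd fun p hp => ball_subset_ball hρR (hsub hp.2)
      · exact (continuous_snd.mul continuous_fst).continuousOn
    · intro p hp
      exact (omit_of_compl hp.1).ne hg.zero _ (hsub hp.2)
  obtain ⟨M, hM⟩ := hcomp.exists_bound_of_continuousOn hcont
  refine ⟨max M 0, le_max_right _ _, ?_⟩
  intro z hz n
  have hgd : DifferentiableOn ℂ g (ball 0 ρ) := hg.diff.mono (ball_subset_ball hρR)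
  have hκd : DifferentiableOn ℂ (fun x => x / (g x - x * z)) (ball 0 ρ) :=
    differentiableOn_id.div (hgd.sub (by fun_prop)) ((omit_of_compl hz).ne hg.zero)
  rw [faber_deriv hρ hρR hg (omit_of_compl hz) n, norm_mul]
  have h1 : ‖((n : ℂ) + 1)‖ = (n : ℝ) + 1 := by
    have : ((n : ℂ) + 1) = (((n : ℝ) + 1 : ℝ) : ℂ) := by push_cast; ring
    rw [this, Complex.norm_real, Real.norm_eq_abs, abs_of_nonneg (by positivity)]
  rw [h1]
  apply mul_le_mul_of_nonneg_left _ (by positivity)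
  have h2 : ‖iteratedDeriv (n + 1) (fun x => x / (g x - x * z)) 0‖ ≤
      (n + 1).factorial * (max M 0) / s ^ (n + 1) := by
    apply Complex.norm_iteratedDeriv_le_of_forall_mem_sphere_norm_le (n + 1) hs
    · apply DifferentiableOn.diffContOnCl
      rw [closure_ball (0 : ℂ) hs.ne']
      exact hκd.mono hsub
    · intro x hx
      exact (hM (z, x) ⟨hz, sphere_subset_closedBall hx⟩).trans (le_max_left _ _)
  unfold tc
  rw [norm_mul, norm_inv, Complex.norm_natCast]
  have h3 : (0 : ℝ) < (n + 1).factorial := by exact_mod_cast Nat.factorial_pos _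
  rw [inv_mul_le_iff₀ h3]
  calc _ ≤ (n + 1).factorial * (max M 0) / s ^ (n + 1) := h2
    _ = _ := by rw [div_eq_mul_inv]; ring

end Pool.Agent.X151.MK
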