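import Mathlib
import Pool.Agent.X151.MK.Ker

/-!
# The moments of combinations of kernels
-/

set_option autoImplicit false

open Complex Topology Filter Metric MeasureTheory Set Polynomial

namespace Pool.Agent.X151.MK

open Pool.Agent.H713R2 Pool.Agent.H713R2.AR Pool.Agent.X151.MH Pool.Agent.X151.MD

/-- The vector of a combination of kernels. -/
noncomputable def wv {ι : Type*} (I : Finset ι) (a x : ι → ℂ) (n : ℕ) : ℂ :=
  ∑ i ∈ I, a i * (x i ^ (n + 1) / (n + 1))

theorem exists_between {ι : Type*} (I : Finset ι) (x : ι → ℂ) {ρ : ℝ} (hρ : 0 < ρ)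
    (hx : ∀ i ∈ I, ‖x i‖ < ρ) : ∃ s, 0 < s ∧ s < ρ ∧ ∀ i ∈ I, ‖x i‖ < s := by
  classical
  induction I using Finset.induction_on with
  | empty => exact ⟨ρ / 2, by linarith, by linarith, fun i hi => absurd hi (Finset.notMem_empty i)⟩
  | insert j I hj ih =>
    obtain ⟨s, h1, h2, h3⟩ := ih fun i hi => hx i (Finset.mem_insert_of_mem hi)
    have h4 := hx j (Finset.mem_insert_self j I)
    refine ⟨max s ((‖x j‖ + ρ) / 2), lt_max_of_lt_left h1, max_lt h2 (by linarith), ?_⟩
    intro i hi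
    rcases Finset.mem_insert.mp hi with rfl | h
    · exact lt_max_of_lt_right (by linarith)
    · exact lt_max_of_lt_left (h3 i h)

theorem eval_deriv_Qc (g : ℂ → ℂ) {ι : Type*} (I : Finset ι) (a x : ι → ℂ) (N : ℕ) (z : ℂ) :
    (derivative (Qc g (wv I a x) N)).eval z = ∑ i ∈ I, a i * ∑ n ∈ Finset.range N,
      x i ^ (n + 1) / (n + 1) * (derivative (Fb (pc g) (n + 1))).eval z := by
  unfold Qc wv
  rw [derivative_sum, eval_finsetSum]
  simp only [derivative_C_mul, eval_mul, eval_C, Finset.mul_sum, Finset.sum_mul]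
  rw [Finset.sum_comm]
  apply Finset.sum_congr rfl
  intro i _
  apply Finset.sum_congr rfl
  intro n _
  ring

theorem tendsto_Mf {R ρ : ℝ} (hρ : 0 < ρ) (hρR : ρ ≤ R) {g : ℂ → ℂ} (hg : IsExt R g)
    {ι : Type*} (I : Finset ι) (a x : ι → ℂ) (hx : ∀ i ∈ I, ‖x i‖ < ρ) :
    Tendsto (fun N => Mf g ρ (wv I a x) N) atTop (𝓝 (1 / Real.pi * ∫ z in (UU g ρ)ᶜ,
      ‖∑ i ∈ I, a i * (x i / (g (x i) - x i * z))‖ ^ 2)) := by
  obtain ⟨s, hs, hsρ, hxs⟩ := exists_between I x hρ hx
  obtain ⟨M, hM0, hM⟩ := ker_bound hs hsρ hρR hg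
  have hcomp := isCompact_compl hg hρ hρR
  have hmeas : MeasurableSet (UU g ρ)ᶜ := hcomp.isClosed.measurableSet
  unfold Mf
  apply Tendsto.const_mul
  set C : ℝ := ∑ i ∈ I, ‖a i‖ * ∑' n : ℕ, M * (‖x i‖ / s) ^ (n + 1) with hC
  have hsum : ∀ i ∈ I, Summable fun n : ℕ => M * (‖x i‖ / s) ^ (n + 1) := by
    intro i hi
    apply Summable.mul_left
    exact (summable_nat_add_iff 1).mpr (summable_geometric_of_lt_one (by positivity)
      (by rw [div_lt_one hs]; exact hxs i hi))
  have hbd : ∀ N, ∀ z ∈ (UU g ρ)ᶜ, ‖(derivative (Qc g (wv I a x) N)).eval z‖ ≤ C := by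
    intro N z hz
    rw [eval_deriv_Qc]
    refine (norm_sum_le _ _).trans (Finset.sum_le_sum fun i hi => ?_)
    rw [norm_mul]
    apply mul_le_mul_of_nonneg_left _ (norm_nonneg _)
    have h1 : ∀ n : ℕ, ‖x i ^ (n + 1) / (n + 1) * (derivative (Fb (pc g) (n + 1))).eval z‖ ≤
        M * (‖x i‖ / s) ^ (n + 1) := by
      intro n
      have h2 : ‖((n : ℂ) + 1)‖ = (n : ℝ) + 1 := by
        have : ((n : ℂ) + 1) = (((n : ℝ) + 1 : ℝ) : ℂ) := by push_cast; ring
        rw [this, Complex.norm_real, Real.norm_eq_abs, abs_of_nonneg (by positivity)]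
      rw [norm_mul, norm_div, norm_pow, h2]
      calc ‖x i‖ ^ (n + 1) / (n + 1) * ‖(derivative (Fb (pc g) (n + 1))).eval z‖
          ≤ ‖x i‖ ^ (n + 1) / (n + 1) * ((n + 1) * (M * (s ^ (n + 1))⁻¹)) := by
            apply mul_le_mul_of_nonneg_left (hM z hz n) (by positivity)
        _ = M * (‖x i‖ / s) ^ (n + 1) := by
            rw [div_pow]
            have : ((n : ℝ) + 1) ≠ 0 := by positivity
            field_simp
    refine (norm_sum_le _ _).trans ?_
    refine (Finset.sum_le_sum fun n _ => h1 n).trans ?_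
    exact (hsum i hi).sum_le_tsum _ fun n _ => by positivity
  have hC0 : 0 ≤ C := Finset.sum_nonneg fun i _ =>
    mul_nonneg (norm_nonneg _) (tsum_nonneg fun n => by positivity)
  apply tendsto_integral_of_dominated_convergence (fun _ => C ^ 2)
  · intro N
    exact ((((derivative (Qc g (wv I a x) N)).continuous).norm.pow 2).aestronglyMeasurable)
  · rw [integrable_const_iff]
    right
    rw [isFiniteMeasure_restrict]
    exact hcomp.measure_lt_top.ne
  · intro N
    rw [ae_restrict_iff' hmeas]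
    refine Eventually.of_forall fun z hz => ?_
    rw [Real.norm_eq_abs, abs_of_nonneg (by positivity)]
    exact pow_le_pow_left₀ (norm_nonneg _) (hbd N z hz) 2
  · rw [ae_restrict_iff' hmeas]
    refine Eventually.of_forall fun z hz => ?_
    apply Tendsto.pow
    apply Tendsto.norm
    simp only [eval_deriv_Qc]
    apply tendsto_finsetSum
    intro i hi
    apply Tendsto.const_mul
    exact (gen_ker hρ hρR hg (omit_of_compl hz)
      (mem_ball_zero_iff.mpr (hx i hi))).tendsto_sum_nat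

end Pool.Agent.X151.MK
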