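import Mathlib
import Pool.Agent.X151.MK.Lim

/-!
# The double series
-/

set_option autoImplicit false

open Complex Topology Filter Metric MeasureTheory Set Polynomial

namespace Pool.Agent.X151.MK

open Pool.Agent.H713R2 Pool.Agent.H713R2.AR Pool.Agent.X151.MH Pool.Agent.X151.MD

/-- The derivatives of the Grunsky coefficients. -/
noncomputable def ch (g : ℂ → ℂ → ℂ) (n j : ℕ) : ℂ :=
  deriv (fun t => hb (pc (g t)) (n + 1) (n + 1 + (j + 1))) 0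

/-- The data of a holomorphic family. -/
structure Fam (R : ℝ) (g : ℂ → ℂ → ℂ) : Prop where
  ext : ∀ t ∈ ball (0 : ℂ) 1, IsExt R (g t)
  hol : ∀ n j, DifferentiableOn ℂ (fun t => pc (g t) n j) (ball 0 1)
  par : ∀ x ∈ ball (0 : ℂ) R, DifferentiableOn ℂ (fun t => g t x) (ball 0 1)

theorem norm_succ (n : ℕ) : ‖((n : ℂ) + 1)‖ = (n : ℝ) + 1 := by
  have : ((n : ℂ) + 1) = (((n : ℝ) + 1 : ℝ) : ℂ) := by push_cast; ring
  rw [this, Complex.norm_real, Real.norm_eq_abs, abs_of_nonneg (by positivity)]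

theorem succ_ne (n : ℕ) : ((n : ℂ) + 1) ≠ 0 := by exact_mod_cast Nat.succ_ne_zero n

/-- The unit vector. -/
noncomputable def ev (n : ℕ) : ℕ → ℂ := fun m => if m = n then 1 else 0

theorem Bc_ev (g : ℂ → ℂ → ℂ) (n : ℕ) (t : ℂ) (j : ℕ) :
    Bc g (ev n) (n + 1) t j = hb (pc (g t)) (n + 1) (n + 1 + (j + 1)) := by
  unfold Bc ev
  rw [Finset.sum_eq_single n]
  · rw [if_pos rfl, one_mul]
  · intro m _ hm
    rw [if_neg hm, zero_mul]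
  · intro h
    exact absurd (Finset.mem_range.mpr (Nat.lt_succ_self n)) h

theorem Qc_ev (g : ℂ → ℂ) (n : ℕ) : Qc g (ev n) (n + 1) = Fb (pc g) (n + 1) := by
  unfold Qc ev
  rw [Finset.sum_eq_single n]
  · rw [if_pos rfl, C_1, one_mul]
  · intro m _ hm
    rw [if_neg hm, C_0, zero_mul]
  · intro h
    exact absurd (Finset.mem_range.mpr (Nat.lt_succ_self n)) h

theorem sum_ev {q : ℕ → ℝ} (n : ℕ) : ∑ m ∈ Finset.range (n + 1), q m * ‖ev n m‖ ^ 2 = q n := by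
  unfold ev
  rw [Finset.sum_eq_single n]
  · simp
  · intro m _ hm
    simp [hm]
  · intro h
    exact absurd (Finset.mem_range.mpr (Nat.lt_succ_self n)) h

theorem bound_of_sq {ρ : ℝ} (hρ : 0 < ρ) {n j : ℕ} {b : ℂ}
    (h : ((j : ℝ) + 1) * ρ ^ (2 * (j + 1)) * ‖b‖ ^ 2 ≤ ((n : ℝ) + 1) * (ρ ^ (2 * (n + 1)))⁻¹) :
    ‖b‖ ≤ ((n : ℝ) + 1) * ((ρ ^ (n + 1))⁻¹ * (ρ ^ (j + 1))⁻¹) := by
  apply le_of_sq_le_sq _ (by positivity)
  have h1 : (1 : ℝ) ≤ (j : ℝ) + 1 := by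
    have : (0 : ℝ) ≤ j := Nat.cast_nonneg j
    linarith
  have h2 : (1 : ℝ) ≤ (n : ℝ) + 1 := by
    have : (0 : ℝ) ≤ n := Nat.cast_nonneg n
    linarith
  have h3 : ρ ^ (2 * (j + 1)) * ‖b‖ ^ 2 ≤ ((n : ℝ) + 1) * (ρ ^ (2 * (n + 1)))⁻¹ := by
    refine le_trans ?_ h
    have : 0 ≤ ρ ^ (2 * (j + 1)) * ‖b‖ ^ 2 := by positivity
    calc ρ ^ (2 * (j + 1)) * ‖b‖ ^ 2 = 1 * (ρ ^ (2 * (j + 1)) * ‖b‖ ^ 2) := (one_mul _).symm
      _ ≤ ((j : ℝ) + 1) * (ρ ^ (2 * (j + 1)) * ‖b‖ ^ 2) := mul_le_mul_of_nonneg_right h1 this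
      _ = _ := by ring
  have h4 : ‖b‖ ^ 2 ≤ (((n : ℝ) + 1) * (ρ ^ (2 * (n + 1)))⁻¹) * (ρ ^ (2 * (j + 1)))⁻¹ := by
    rw [← div_eq_mul_inv (((n : ℝ) + 1) * (ρ ^ (2 * (n + 1)))⁻¹), le_div_iff₀ (by positivity),
      mul_comm]
    exact h3
  refine h4.trans ?_
  have h5 : (((n : ℝ) + 1) * ((ρ ^ (n + 1))⁻¹ * (ρ ^ (j + 1))⁻¹)) ^ 2 =
      ((n : ℝ) + 1) ^ 2 * ((ρ ^ (2 * (n + 1)))⁻¹ * (ρ ^ (2 * (j + 1)))⁻¹) := by
    rw [mul_pow, mul_pow, inv_pow, inv_pow, ← pow_mul, ← pow_mul, mul_comm (n + 1) 2,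
      mul_comm (j + 1) 2]
  rw [h5]
  have h6 : ((n : ℝ) + 1) ≤ ((n : ℝ) + 1) ^ 2 := by nlinarith
  calc (((n : ℝ) + 1) * (ρ ^ (2 * (n + 1)))⁻¹) * (ρ ^ (2 * (j + 1)))⁻¹
      = ((n : ℝ) + 1) * ((ρ ^ (2 * (n + 1)))⁻¹ * (ρ ^ (2 * (j + 1)))⁻¹) := by ring
    _ ≤ _ := by gcongr

theorem Fam.hb_bound {R ρ : ℝ} {g : ℂ → ℂ → ℂ} (F : Fam R g) (hρ : 0 < ρ) (hρR : ρ < R)
    {t : ℂ} (ht : t ∈ ball (0 : ℂ) 1) (n j : ℕ) :
    ‖hb (pc (g t)) (n + 1) (n + 1 + (j + 1))‖ ≤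
      ((n : ℝ) + 1) * ((ρ ^ (n + 1))⁻¹ * (ρ ^ (j + 1))⁻¹) := by
  apply bound_of_sq hρ
  have h1 := area_ineq hρ hρR (F.ext t ht) (ev n) (n + 1) (j + 1)
  have h2 := sum_ev (q := fun n => ((n : ℝ) + 1) * (ρ ^ (2 * (n + 1)))⁻¹) n
  rw [h2] at h1
  refine le_trans ?_ h1
  have h3 := Finset.single_le_sum (f := fun j : ℕ => ((j : ℝ) + 1) * ρ ^ (2 * (j + 1)) *
      ‖∑ m ∈ Finset.range (n + 1), ev n m * hb (pc (g t)) (m + 1) (m + 1 + (j + 1))‖ ^ 2)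
      (fun j _ => by positivity) (Finset.mem_range.mpr (Nat.lt_succ_self j))
  refine le_trans (le_of_eq ?_) h3
  have h4 := Bc_ev g n t j
  unfold Bc at h4
  simp only [h4]

theorem Fam.ch_bound {R ρ : ℝ} {g : ℂ → ℂ → ℂ} (F : Fam R g) (hρ : 0 < ρ) (hρR : ρ < R)
    (n j : ℕ) : ‖ch g n j‖ ≤ ((n : ℝ) + 1) * ((ρ ^ (n + 1))⁻¹ * (ρ ^ (j + 1))⁻¹) := by
  apply bound_of_sq hρ
  have h1 := sum_deriv_le hρ hρR F.ext F.hol (ev n) (n + 1) (j + 1)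
  have h0 : (0 : ℂ) ∈ ball (0 : ℂ) 1 := mem_ball_self one_pos
  have h2 : 1 / Real.pi * ∫ z in (UU (g 0) ρ)ᶜ,
      ‖(derivative (Qc (g 0) (ev n) (n + 1))).eval z‖ ^ 2 ≤
      ((n : ℝ) + 1) * (ρ ^ (2 * (n + 1)))⁻¹ := by
    have h3 := area_comb hρ hρR (F.ext 0 h0) (ev n) (n + 1)
    have h4 := h3.nonneg fun j => by positivity
    rw [sum_ev (q := fun n => ((n : ℝ) + 1) * (ρ ^ (2 * (n + 1)))⁻¹) n] at h4
    have h5 : (1 / Real.pi * ∫ z in (UU (g 0) ρ)ᶜ,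
      ‖(derivative (Qc (g 0) (ev n) (n + 1))).eval z‖ ^ 2) = 1 / Real.pi *
        ∫ z in (UU (g 0) ρ)ᶜ, ‖(derivative (∑ m ∈ Finset.range (n + 1),
          C (ev n m) * Fb (pc (g 0)) (m + 1))).eval z‖ ^ 2 := rfl
    rw [h5]
    linarith
  refine le_trans ?_ (h1.trans h2)
  have h3 := Finset.single_le_sum (f := fun j : ℕ => (((j : ℝ) + 1) * ρ ^ (2 * (j + 1))) *
      ‖deriv (fun t => Bc g (ev n) (n + 1) t j) 0‖ ^ 2)
      (fun j _ => by positivity) (Finset.mem_range.mpr (Nat.lt_succ_self j))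
  refine le_trans (le_of_eq ?_) h3
  simp only [Bc_ev]
  rfl

/-- The terms of the double series. -/
noncomputable def tt (g : ℂ → ℂ → ℂ) (x y : ℂ) (p : ℕ × ℕ) : ℂ :=
  x ^ (p.1 + 1) / (p.1 + 1) * ch g p.1 p.2 * y ^ (p.2 + 1)

/-- The double series. -/
noncomputable def TT (g : ℂ → ℂ → ℂ) (x y : ℂ) : ℂ := ∑' p, tt g x y p

theorem Fam.tt_bound {R ρ : ℝ} {g : ℂ → ℂ → ℂ} (F : Fam R g) (hρ : 0 < ρ) (hρR : ρ < R)
    (x y : ℂ) (p : ℕ × ℕ) :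
    ‖tt g x y p‖ ≤ (‖x‖ / ρ) ^ (p.1 + 1) * (‖y‖ / ρ) ^ (p.2 + 1) := by
  unfold tt
  rw [norm_mul, norm_mul, norm_div, norm_pow, norm_pow, norm_succ]
  calc ‖x‖ ^ (p.1 + 1) / (p.1 + 1) * ‖ch g p.1 p.2‖ * ‖y‖ ^ (p.2 + 1)
      ≤ ‖x‖ ^ (p.1 + 1) / (p.1 + 1) * (((p.1 : ℝ) + 1) * ((ρ ^ (p.1 + 1))⁻¹ *
        (ρ ^ (p.2 + 1))⁻¹)) * ‖y‖ ^ (p.2 + 1) := by
        have := F.ch_bound hρ hρR p.1 p.2
        gcongr
    _ = _ := by
        rw [div_pow, div_pow]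
        have : ((p.1 : ℝ) + 1) ≠ 0 := by positivity
        field_simp

theorem summable_geo {a b : ℝ} (ha : 0 ≤ a) (ha1 : a < 1) (hb : 0 ≤ b) (hb1 : b < 1) :
    Summable fun p : ℕ × ℕ => a ^ (p.1 + 1) * b ^ (p.2 + 1) := by
  have h1 : Summable fun n : ℕ => a ^ (n + 1) :=
    (summable_nat_add_iff 1).mpr (summable_geometric_of_lt_one ha ha1)
  have h2 : Summable fun n : ℕ => b ^ (n + 1) :=
    (summable_nat_add_iff 1).mpr (summable_geometric_of_lt_one hb hb1)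
  exact h1.mul_of_nonneg h2 (fun n => by positivity) (fun n => by positivity)

theorem Fam.summable_tt {R ρ : ℝ} {g : ℂ → ℂ → ℂ} (F : Fam R g) (hρ : 0 < ρ) (hρR : ρ < R)
    {x y : ℂ} (hx : ‖x‖ < ρ) (hy : ‖y‖ < ρ) : Summable (tt g x y) := by
  apply Summable.of_norm_bounded (summable_geo (a := ‖x‖ / ρ) (b := ‖y‖ / ρ) (by positivity)
    (by rw [div_lt_one hρ]; exact hx) (by positivity) (by rw [div_lt_one hρ]; exact hy))
  intro p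
  exact F.tt_bound hρ hρR x y p

/-- Symmetry. -/
theorem Fam.tt_symm {R : ℝ} (hR : 0 < R) {g : ℂ → ℂ → ℂ} (F : Fam R g) (x y : ℂ) (p : ℕ × ℕ) :
    tt g x y p = tt g y x (p.2, p.1) := by
  have h1 : ((p.2 : ℂ) + 1) * ch g p.1 p.2 = (p.1 + 1) * ch g p.2 p.1 := by
    have h0 : (0 : ℂ) ∈ ball (0 : ℂ) 1 := mem_ball_self one_pos
    have h2 : (fun t => ((p.2 : ℂ) + 1) * hb (pc (g t)) (p.1 + 1) (p.1 + 1 + (p.2 + 1))) =ᶠ[𝓝 0]
        fun t => ((p.1 : ℂ) + 1) * hb (pc (g t)) (p.2 + 1) (p.2 + 1 + (p.1 + 1)) := by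
      filter_upwards [isOpen_ball.mem_nhds h0] with t ht
      have h3 := hb_symm hR (F.ext t ht) (show 1 ≤ p.2 + 1 by omega) (show 1 ≤ p.1 + 1 by omega)
      push_cast at h3
      rw [show p.1 + 1 + (p.2 + 1) = p.2 + 1 + (p.1 + 1) by ring]
      exact h3
    have hd : ∀ n j, DifferentiableAt ℂ (fun t => hb (pc (g t)) n j) 0 := fun n j =>
      (hb_differentiableOn F.hol n j).differentiableAt (isOpen_ball.mem_nhds h0)
    have h3 := h2.deriv_eq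
    rw [deriv_const_mul _ (hd _ _), deriv_const_mul _ (hd _ _)] at h3
    exact h3
  unfold tt
  simp only
  have e1 := succ_ne p.1
  have e2 := succ_ne p.2
  have h2 : ch g p.1 p.2 = (p.1 + 1) * ch g p.2 p.1 / (p.2 + 1) := by
    rw [eq_div_iff e2]; linear_combination h1
  rw [h2]
  field_simp

theorem Fam.TT_symm {R : ℝ} (hR : 0 < R) {g : ℂ → ℂ → ℂ} (F : Fam R g) (x y : ℂ) :
    TT g x y = TT g y x := by
  unfold TT
  rw [← (Equiv.prodComm ℕ ℕ).tsum_eq]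
  apply tsum_congr
  intro p
  rw [F.tt_symm hR]
  rfl

/-- Continuity along radii. -/
theorem Fam.TT_tendsto {R ρ : ℝ} {g : ℂ → ℂ → ℂ} (F : Fam R g) (hρ : 0 < ρ) (hρR : ρ < R)
    {x y : ℂ} (hx : ‖x‖ < ρ) (hy : ‖y‖ < ρ) {X : ℕ → ℂ} (hX : Tendsto X atTop (𝓝 x))
    (hXx : ∀ k, ‖X k‖ ≤ ‖x‖) : Tendsto (fun k => TT g (X k) y) atTop (𝓝 (TT g x y)) := by
  unfold TT
  apply tendsto_tsum_of_dominated_convergence (summable_geo (a := ‖x‖ / ρ) (b := ‖y‖ / ρ)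
    (by positivity) (by rw [div_lt_one hρ]; exact hx) (by positivity)
    (by rw [div_lt_one hρ]; exact hy))
  · intro p
    unfold tt
    exact (((hX.pow (p.1 + 1)).div_const _).mul_const _).mul_const _
  · refine Eventually.of_forall fun k p => ?_
    refine (F.tt_bound hρ hρR (X k) y p).trans ?_
    have := hXx k
    gcongr

end Pool.Agent.X151.MK
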