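import Mathlib
import Pool.Agent.X151.MK.Dbl

/-!
# The double series and the velocities
-/

set_option autoImplicit false

open Complex Topology Filter Metric MeasureTheory Set Polynomial

namespace Pool.Agent.X151.MK

open Pool.Agent.H713R2 Pool.Agent.H713R2.AR Pool.Agent.X151.MH Pool.Agent.X151.MD

/-- The point with the coordinate `y`. -/
noncomputable def ps (g : ℂ → ℂ → ℂ) (t y : ℂ) : ℂ := y⁻¹ * g t y

/-- The velocity of the point with the coordinate `y`. -/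
noncomputable def vl (g : ℂ → ℂ → ℂ) (y : ℂ) : ℂ := deriv (fun t => ps g t y) 0

/-- The values of the Faber polynomials. -/
noncomputable def Hn (g : ℂ → ℂ → ℂ) (y : ℂ) (n : ℕ) (t : ℂ) : ℂ :=
  (Fb (pc (g t)) (n + 1)).eval (ps g t y)

variable {R ρ : ℝ} {g : ℂ → ℂ → ℂ}

theorem Fam.hasSum_Hn (F : Fam R g) (hR : 0 < R) {y : ℂ} (hy : y ∈ ball (0 : ℂ) R) (hy0 : y ≠ 0)
    (n : ℕ) {t : ℂ} (ht : t ∈ ball (0 : ℂ) 1) :
    HasSum (fun j : ℕ => hb (pc (g t)) (n + 1) (n + 1 + (j + 1)) * y ^ (j + 1))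
      (Hn g y n t - (y ^ (n + 1))⁻¹) := by
  have h1 := hasSum_Q hR (F.ext t ht) (ev n) (n + 1) hy hy0
  rw [Qc_ev] at h1
  have h2 : ∑ m ∈ Finset.range (n + 1), ev n m * (y ^ (m + 1))⁻¹ = (y ^ (n + 1))⁻¹ := by
    unfold ev
    rw [Finset.sum_eq_single n]
    · simp
    · intro m _ hm
      simp [hm]
    · intro h
      exact absurd (Finset.mem_range.mpr (Nat.lt_succ_self n)) h
  rw [h2] at h1
  have h3 := fun j => Bc_ev g n t j
  unfold Bc at h3
  simp only [h3] at h1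
  exact h1

theorem summable_y {ρ : ℝ} (hρ : 0 < ρ) {y : ℂ} (hy : ‖y‖ < ρ) :
    Summable fun j : ℕ => (‖y‖ / ρ) ^ (j + 1) :=
  (summable_nat_add_iff 1).mpr (summable_geometric_of_lt_one (by positivity)
    (by rw [div_lt_one hρ]; exact hy))

/-- The bound for the values of the Faber polynomials. -/
theorem Fam.Hn_bound (F : Fam R g) (hρ : 0 < ρ) (hρR : ρ < R) {y : ℂ} (hy : ‖y‖ < ρ) (hy0 : y ≠ 0)
    (n : ℕ) {t : ℂ} (ht : t ∈ ball (0 : ℂ) 1) :
    ‖Hn g y n t‖ ≤ ((n : ℝ) + 1) * (1 + ∑' j : ℕ, (‖y‖ / ρ) ^ (j + 1)) * (‖y‖ ^ (n + 1))⁻¹ := by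
  have hyR : y ∈ ball (0 : ℂ) R := by rw [mem_ball_zero_iff]; linarith
  have hyp : 0 < ‖y‖ := norm_pos_iff.mpr hy0
  have h1 := F.hasSum_Hn (hρ.trans hρR) hyR hy0 n ht
  set A : ℝ := ∑' j : ℕ, (‖y‖ / ρ) ^ (j + 1) with hA
  have hA0 : 0 ≤ A := tsum_nonneg fun j => by positivity
  have h2 : ‖Hn g y n t - (y ^ (n + 1))⁻¹‖ ≤ ((n : ℝ) + 1) * (ρ ^ (n + 1))⁻¹ * A := by
    rw [← h1.tsum_eq]
    have h3 := (summable_y hρ hy).mul_left (((n : ℝ) + 1) * (ρ ^ (n + 1))⁻¹)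
    rw [hA, ← tsum_mul_left]
    refine tsum_of_norm_bounded h3.hasSum fun j => ?_
    rw [norm_mul, norm_pow]
    calc ‖hb (pc (g t)) (n + 1) (n + 1 + (j + 1))‖ * ‖y‖ ^ (j + 1)
        ≤ (((n : ℝ) + 1) * ((ρ ^ (n + 1))⁻¹ * (ρ ^ (j + 1))⁻¹)) * ‖y‖ ^ (j + 1) := by
          have := F.hb_bound hρ hρR ht n j
          gcongr
      _ = _ := by rw [div_pow]; field_simp
  have h3 : ‖Hn g y n t‖ ≤ ‖Hn g y n t - (y ^ (n + 1))⁻¹‖ + ‖(y ^ (n + 1))⁻¹‖ := by
    have := norm_add_le (Hn g y n t - (y ^ (n + 1))⁻¹) ((y ^ (n + 1))⁻¹)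
    rwa [sub_add_cancel] at this
  rw [norm_inv, norm_pow] at h3
  have h4 : (ρ ^ (n + 1))⁻¹ ≤ (‖y‖ ^ (n + 1))⁻¹ := by gcongr
  have h5 : (1 : ℝ) ≤ (n : ℝ) + 1 := by
    have : (0 : ℝ) ≤ n := Nat.cast_nonneg n
    linarith
  have h6 : 0 ≤ (‖y‖ ^ (n + 1))⁻¹ := by positivity
  calc ‖Hn g y n t‖ ≤ ((n : ℝ) + 1) * (ρ ^ (n + 1))⁻¹ * A + (‖y‖ ^ (n + 1))⁻¹ := by linarith
    _ ≤ ((n : ℝ) + 1) * (‖y‖ ^ (n + 1))⁻¹ * A + ((n : ℝ) + 1) * (‖y‖ ^ (n + 1))⁻¹ := by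
        apply add_le_add
        · gcongr
        · nlinarith
    _ = _ := by ring

theorem Fam.Hn_diff (F : Fam R g) (hρ : 0 < ρ) (hρR : ρ < R) {y : ℂ} (hy : ‖y‖ < ρ) (hy0 : y ≠ 0)
    (n : ℕ) : DifferentiableOn ℂ (Hn g y n) (ball 0 1) ∧
      HasSum (fun j : ℕ => ch g n j * y ^ (j + 1)) (deriv (Hn g y n) 0) := by
  have hyR : y ∈ ball (0 : ℂ) R := by rw [mem_ball_zero_iff]; linarith
  have h0 : (0 : ℂ) ∈ ball (0 : ℂ) 1 := mem_ball_self one_pos
  have hd : ∀ j, DifferentiableOn ℂ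
      (fun t => hb (pc (g t)) (n + 1) (n + 1 + (j + 1)) * y ^ (j + 1)) (ball 0 1) := fun j =>
    (hb_differentiableOn F.hol (n + 1) (n + 1 + (j + 1))).mul_const _
  have hsum := (summable_y hρ hy).mul_left (((n : ℝ) + 1) * (ρ ^ (n + 1))⁻¹)
  have hbd : ∀ j : ℕ, ∀ t ∈ ball (0 : ℂ) 1,
      ‖hb (pc (g t)) (n + 1) (n + 1 + (j + 1)) * y ^ (j + 1)‖ ≤
        (((n : ℝ) + 1) * (ρ ^ (n + 1))⁻¹) * (‖y‖ / ρ) ^ (j + 1) := by
    intro j t ht
    rw [norm_mul, norm_pow]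
    calc ‖hb (pc (g t)) (n + 1) (n + 1 + (j + 1))‖ * ‖y‖ ^ (j + 1)
        ≤ (((n : ℝ) + 1) * ((ρ ^ (n + 1))⁻¹ * (ρ ^ (j + 1))⁻¹)) * ‖y‖ ^ (j + 1) := by
          have := F.hb_bound hρ hρR ht n j
          gcongr
      _ = _ := by rw [div_pow]; field_simp
  have h1 := differentiableOn_tsum_of_summable_norm hsum hd isOpen_ball hbd
  have h2 := Complex.hasSum_deriv_of_summable_norm hsum hd isOpen_ball hbd h0
  have h3 : ∀ t ∈ ball (0 : ℂ) 1,
      ∑' j : ℕ, hb (pc (g t)) (n + 1) (n + 1 + (j + 1)) * y ^ (j + 1) =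
        Hn g y n t - (y ^ (n + 1))⁻¹ := fun t ht =>
    (F.hasSum_Hn (hρ.trans hρR) hyR hy0 n ht).tsum_eq
  constructor
  · have h4 : DifferentiableOn ℂ (fun t => Hn g y n t - (y ^ (n + 1))⁻¹) (ball 0 1) :=
      h1.congr fun t ht => (h3 t ht).symm
    have h5 := h4.add_const ((y ^ (n + 1))⁻¹)
    exact h5.congr fun t _ => by simp
  · have h4 : (fun t => ∑' j : ℕ, hb (pc (g t)) (n + 1) (n + 1 + (j + 1)) * y ^ (j + 1)) =ᶠ[𝓝 0]
        fun t => Hn g y n t - (y ^ (n + 1))⁻¹ := by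
      filter_upwards [isOpen_ball.mem_nhds h0] with t ht using h3 t ht
    rw [h4.deriv_eq, deriv_sub_const] at h2
    convert! h2 using 1
    funext j
    rw [deriv_mul_const ((hb_differentiableOn F.hol (n + 1) (n + 1 + (j + 1))).differentiableAt
      (isOpen_ball.mem_nhds h0))]
    rfl

/-- The double series and the velocities, for points in order. -/
theorem Fam.TT_eq_lt (F : Fam R g) (hρ : 0 < ρ) (hρR : ρ < R) {x y : ℂ} (hx0 : x ≠ 0)
    (hxy : ‖x‖ < ‖y‖) (hy : ‖y‖ < ρ) :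
    TT g x y = -((vl g x - vl g y) / (ps g 0 x - ps g 0 y)) := by
  have h0 : (0 : ℂ) ∈ ball (0 : ℂ) 1 := mem_ball_self one_pos
  have hxp : 0 < ‖x‖ := norm_pos_iff.mpr hx0
  have hyp : 0 < ‖y‖ := hxp.trans hxy
  have hy0 : y ≠ 0 := norm_pos_iff.mp hyp
  have hyR : y ∈ ball (0 : ℂ) R := by rw [mem_ball_zero_iff]; linarith
  have hxR : x ∈ ball (0 : ℂ) R := by rw [mem_ball_zero_iff]; linarith
  -- the series in `n`
  set G : ℕ → ℂ → ℂ := fun n t => x ^ (n + 1) / (n + 1) * Hn g y n t with hG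
  have hGd : ∀ n, DifferentiableOn ℂ (G n) (ball 0 1) := fun n =>
    (F.Hn_diff hρ hρR hy hy0 n).1.const_mul _
  set A : ℝ := 1 + ∑' j : ℕ, (‖y‖ / ρ) ^ (j + 1) with hA
  have hA0 : 0 ≤ A := add_nonneg zero_le_one (tsum_nonneg fun j => by positivity)
  have hGb : ∀ n, ∀ t ∈ ball (0 : ℂ) 1, ‖G n t‖ ≤ A * (‖x‖ / ‖y‖) ^ (n + 1) := by
    intro n t ht
    rw [hG]
    simp only
    rw [norm_mul, norm_div, norm_pow, norm_succ]
    calc ‖x‖ ^ (n + 1) / (n + 1) * ‖Hn g y n t‖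
        ≤ ‖x‖ ^ (n + 1) / (n + 1) * (((n : ℝ) + 1) * A * (‖y‖ ^ (n + 1))⁻¹) := by
          have := F.Hn_bound hρ hρR hy hy0 n ht
          gcongr
      _ = _ := by
          rw [div_pow]
          have : ((n : ℝ) + 1) ≠ 0 := by positivity
          field_simp
  have hGs : Summable fun n : ℕ => A * (‖x‖ / ‖y‖) ^ (n + 1) := by
    apply Summable.mul_left
    exact (summable_nat_add_iff 1).mpr (summable_geometric_of_lt_one (by positivity)
      (by rw [div_lt_one hyp]; exact hxy))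
  have hE := differentiableOn_tsum_of_summable_norm hGs hGd isOpen_ball hGb
  have hE' := Complex.hasSum_deriv_of_summable_norm hGs hGd isOpen_ball hGb h0
  -- the value of the sum
  have hexp : ∀ t ∈ ball (0 : ℂ) 1, Complex.exp (-∑' n, G n t) = g t x - x * ps g t y := by
    intro t ht
    have hom : Omit (g t) ‖y‖ (ps g t y) := by
      intro u hu hu0 h
      have huR : u ∈ ball (0 : ℂ) R := by
        rw [mem_ball_zero_iff] at hu ⊢; linarith
      have h1 := (F.ext t ht).inj u huR y hyR hu0 hy0 h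
      rw [h1, mem_ball_zero_iff] at hu
      exact lt_irrefl _ hu
    obtain ⟨e, he1, he2⟩ := gen_log hyp (by linarith : ‖y‖ ≤ R) (F.ext t ht) hom
      (mem_ball_zero_iff.mpr hxy)
    have h2 : ∑' n, G n t = e := he1.tsum_eq
    rw [h2, he2]
  -- the derivatives at `0`
  have hgx : DifferentiableAt ℂ (fun t => ps g t x) 0 :=
    ((F.par x hxR).differentiableAt (isOpen_ball.mem_nhds h0)).const_mul _
  have hgy : DifferentiableAt ℂ (fun t => ps g t y) 0 :=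
    ((F.par y hyR).differentiableAt (isOpen_ball.mem_nhds h0)).const_mul _
  have hd1 : HasDerivAt (fun t => x * (ps g t x - ps g t y)) (x * (vl g x - vl g y)) 0 :=
    (hgx.hasDerivAt.sub hgy.hasDerivAt).const_mul x
  have hEd : HasDerivAt (fun t => ∑' n, G n t) (deriv (fun t => ∑' n, G n t) 0) 0 :=
    (hE.differentiableAt (isOpen_ball.mem_nhds h0)).hasDerivAt
  have hd2 := hEd.neg.cexp
  have heq : (fun t => x * (ps g t x - ps g t y)) =ᶠ[𝓝 0]
      fun t => Complex.exp ((-fun t => ∑' n, G n t) t) := by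
    filter_upwards [isOpen_ball.mem_nhds h0] with t ht
    have h1 := hexp t ht
    rw [Pi.neg_apply, h1]
    unfold ps
    field_simp
  have hd3 := hd2.congr_of_eventuallyEq heq
  have h1 := hd1.unique hd3
  have h2 : Complex.exp ((-fun t => ∑' n, G n t) 0) = x * (ps g 0 x - ps g 0 y) := by
    rw [Pi.neg_apply, hexp 0 h0]
    unfold ps
    field_simp
  rw [h2] at h1
  have hne : ps g 0 x - ps g 0 y ≠ 0 := by
    intro h
    have h3 := (F.ext 0 h0).inj x hxR y hyR hx0 hy0 (sub_eq_zero.mp h)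
    rw [h3] at hxy
    exact lt_irrefl _ hxy
  have h3 : deriv (fun t => ∑' n, G n t) 0 = -((vl g x - vl g y) / (ps g 0 x - ps g 0 y)) := by
    field_simp
    have h4 : x * (vl g x - vl g y + (ps g 0 x - ps g 0 y) * deriv (fun t => ∑' n, G n t) 0) = 0 := by
      linear_combination h1
    have h5 := (mul_eq_zero.mp h4).resolve_left hx0
    linear_combination h5
  -- the double series
  have hs := F.summable_tt hρ hρR (hxy.trans hy) hy
  have h4 : TT g x y = ∑' n, ∑' j, tt g x y (n, j) := by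
    unfold TT
    exact hs.tsum_prod
  have h5 : ∀ n, ∑' j, tt g x y (n, j) = deriv (G n) 0 := by
    intro n
    have h6 := (F.Hn_diff hρ hρR hy hy0 n).2.mul_left (x ^ (n + 1) / ((n : ℂ) + 1))
    have h7 : deriv (G n) 0 = x ^ (n + 1) / (n + 1) * deriv (Hn g y n) 0 := by
      rw [hG]
      simp only
      rw [deriv_const_mul _ ((F.Hn_diff hρ hρR hy hy0 n).1.differentiableAt
        (isOpen_ball.mem_nhds h0))]
    rw [h7, ← h6.tsum_eq]
    apply tsum_congr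
    intro j
    unfold tt
    ring
  rw [h4]
  simp only [h5]
  rw [hE'.tsum_eq, h3]

end Pool.Agent.X151.MK
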