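import Mathlib
import Pool.Agent.X151.MK.Der

/-!
# The kernel inequality for a holomorphic family
-/

set_option autoImplicit false

open Complex Topology Filter Metric MeasureTheory Set Polynomial

namespace Pool.Agent.X151.MK

open Pool.Agent.H713R2 Pool.Agent.H713R2.AR Pool.Agent.X151.MH Pool.Agent.X151.MD

variable {R ρ : ℝ} {g : ℂ → ℂ → ℂ}

theorem dslope_of_ne' {f : ℂ → ℂ} {a b : ℂ} (h : b ≠ a) :
    dslope f a b = (f b - f a) / (b - a) := by
  rw [dslope_of_ne f h, slope_def_field]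

/-- All pairs. -/
theorem Fam.TT_eq (F : Fam R g) (hρ : 0 < ρ) (hρR : ρ < R) {Vf : ℂ → ℂ}
    (hV1 : ∀ x, x ≠ 0 → ‖x‖ < ρ → Vf (ps g 0 x) = vl g x)
    (hV2 : ∀ x, x ≠ 0 → ‖x‖ < ρ → DifferentiableAt ℂ Vf (ps g 0 x))
    {x y : ℂ} (hx0 : x ≠ 0) (hy0 : y ≠ 0) (hx : ‖x‖ < ρ) (hy : ‖y‖ < ρ) :
    TT g x y = -dslope Vf (ps g 0 y) (ps g 0 x) := by
  have h0 : (0 : ℂ) ∈ ball (0 : ℂ) 1 := mem_ball_self one_pos
  have hR : 0 < R := hρ.trans hρR
  have hmem : ∀ z : ℂ, ‖z‖ < ρ → z ∈ ball (0 : ℂ) R := fun z hz => by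
    rw [mem_ball_zero_iff]; linarith
  have hne : ∀ a b : ℂ, a ≠ 0 → b ≠ 0 → ‖a‖ < ρ → ‖b‖ < ρ → a ≠ b → ps g 0 a ≠ ps g 0 b :=
    fun a b ha hb ha' hb' hab h =>
      hab ((F.ext 0 h0).inj a (hmem a ha') b (hmem b hb') ha hb h)
  have hlt : ∀ a b : ℂ, a ≠ 0 → ‖a‖ < ‖b‖ → ‖b‖ < ρ →
      TT g a b = -dslope Vf (ps g 0 b) (ps g 0 a) := by
    intro a b ha hab hb
    have hb0 : b ≠ 0 := by
      rintro rfl
      rw [norm_zero] at hab
      linarith [norm_nonneg a]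
    rw [F.TT_eq_lt hρ hρR ha hab hb, dslope_of_ne' (hne a b ha hb0 (hab.trans hb) hb
      (by rintro rfl; exact lt_irrefl _ hab)), hV1 a ha (hab.trans hb), hV1 b hb0 hb]
  rcases lt_trichotomy ‖x‖ ‖y‖ with h | h | h
  · exact hlt x y hx0 h hy
  · -- the limit
    set X : ℕ → ℂ := fun k => ((1 - 1 / ((k : ℝ) + 2) : ℝ) : ℂ) * x with hX
    have hxp : 0 < ‖x‖ := norm_pos_iff.mpr hx0
    have hfac : ∀ k : ℕ, 0 < 1 - 1 / ((k : ℝ) + 2) ∧ 1 - 1 / ((k : ℝ) + 2) < 1 := by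
      intro k
      have hk : (0 : ℝ) ≤ k := Nat.cast_nonneg k
      constructor
      · rw [sub_pos, div_lt_one (by linarith)]; linarith
      · have : 0 < 1 / ((k : ℝ) + 2) := by positivity
        linarith
    have hXn : ∀ k, ‖X k‖ < ‖x‖ := by
      intro k
      rw [hX]
      simp only
      rw [norm_mul, Complex.norm_real, Real.norm_eq_abs, abs_of_pos (hfac k).1]
      nlinarith [(hfac k).2]
    have hX0 : ∀ k, X k ≠ 0 := fun k => by
      rw [hX]
      simp only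
      exact mul_ne_zero (by exact_mod_cast (hfac k).1.ne') hx0
    have hXt : Tendsto X atTop (𝓝 x) := by
      have h1 : Tendsto (fun k : ℕ => (1 - 1 / ((k : ℝ) + 2) : ℝ)) atTop (𝓝 (1 - 0)) := by
        apply Tendsto.const_sub
        have h2 := (tendsto_one_div_add_atTop_nhds_zero_nat (𝕜 := ℝ)).comp (tendsto_add_atTop_nat 1)
        refine h2.congr fun k => ?_
        simp only [Function.comp]
        push_cast
        ring_nf
      have h2 : Tendsto (fun k : ℕ => ((1 - 1 / ((k : ℝ) + 2) : ℝ) : ℂ) * x) atTop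
          (𝓝 (((1 - 0 : ℝ) : ℂ) * x)) :=
        ((Complex.continuous_ofReal.tendsto _).comp h1).mul_const x
      simpa [hX] using h2
    have h1 := F.TT_tendsto hρ hρR hx hy hXt (fun k => (hXn k).le)
    have h2 : ∀ k, TT g (X k) y = -dslope Vf (ps g 0 y) (ps g 0 (X k)) := fun k =>
      hlt (X k) y (hX0 k) (by rw [← h]; exact hXn k) hy
    simp only [h2] at h1
    have hψ : ContinuousAt (fun z => ps g 0 z) x := by
      have h3 : ContinuousAt (g 0) x :=
        ((F.ext 0 h0).diff.differentiableAt (isOpen_ball.mem_nhds (hmem x hx))).continuousAt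
      exact (continuousAt_inv₀ hx0).mul h3
    have hds : ContinuousAt (dslope Vf (ps g 0 y)) (ps g 0 x) := by
      by_cases hxy : x = y
      · rw [hxy]
        exact continuousAt_dslope_same.mpr (hV2 y hy0 hy)
      · exact (continuousAt_dslope_of_ne (hne x y hx0 hy0 hx hy hxy)).mpr
          (hV2 x hx0 hx).continuousAt
    have h3 : Tendsto (fun k => -dslope Vf (ps g 0 y) (ps g 0 (X k))) atTop
        (𝓝 (-dslope Vf (ps g 0 y) (ps g 0 x))) :=
      (hds.tendsto.comp (hψ.tendsto.comp hXt)).neg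
    exact tendsto_nhds_unique h1 h3
  · rw [F.TT_symm hR, hlt y x hy0 h hx]
    have h1 := hne x y hx0 hy0 hx hy (by rintro rfl; exact lt_irrefl _ h)
    rw [dslope_of_ne' h1, dslope_of_ne' h1.symm, ← neg_sub (Vf (ps g 0 x)),
      ← neg_sub (ps g 0 x), neg_div_neg_eq]

theorem tendsto_squares : Tendsto (fun N => Finset.range N ×ˢ Finset.range N) atTop atTop := by
  apply tendsto_atTop_finset_of_monotone
  · intro a b hab
    exact Finset.product_subset_product (Finset.range_mono hab) (Finset.range_mono hab)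
  · rintro ⟨i, j⟩
    refine ⟨max i j + 1, ?_⟩
    rw [Finset.mem_product, Finset.mem_range, Finset.mem_range]
    exact ⟨Nat.lt_succ_of_le (le_max_left i j), Nat.lt_succ_of_le (le_max_right i j)⟩

/-- The kernel inequality. -/
theorem Fam.kernel (F : Fam R g) (hρ : 0 < ρ) (hρR : ρ < R) {Vf : ℂ → ℂ}
    (hV1 : ∀ x, x ≠ 0 → ‖x‖ < ρ → Vf (ps g 0 x) = vl g x)
    (hV2 : ∀ x, x ≠ 0 → ‖x‖ < ρ → DifferentiableAt ℂ Vf (ps g 0 x))
    {ι κ : Type*} (I : Finset ι) (K : Finset κ) (a x : ι → ℂ) (b y : κ → ℂ)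
    (hx0 : ∀ i ∈ I, x i ≠ 0) (hx : ∀ i ∈ I, ‖x i‖ < ρ)
    (hy0 : ∀ k ∈ K, y k ≠ 0) (hy : ∀ k ∈ K, ‖y k‖ < ρ) :
    ‖∑ i ∈ I, ∑ k ∈ K, a i * b k * dslope Vf (ps g 0 (y k)) (ps g 0 (x i))‖ ^ 2 ≤
      (1 / Real.pi * ∫ z in (UU (g 0) ρ)ᶜ, ‖∑ i ∈ I, a i / (ps g 0 (x i) - z)‖ ^ 2) *
      (1 / Real.pi * ∫ z in (UU (g 0) ρ)ᶜ, ‖∑ k ∈ K, b k / (ps g 0 (y k) - z)‖ ^ 2) := by
  have h0 : (0 : ℂ) ∈ ball (0 : ℂ) 1 := mem_ball_self one_pos
  have hg0 := F.ext 0 h0
  have hmeas : MeasurableSet (UU (g 0) ρ)ᶜ :=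
    (isCompact_compl hg0 hρ hρR.le).isClosed.measurableSet
  -- the integrals
  have hint : ∀ {ι : Type _} (I : Finset ι) (a x : ι → ℂ), (∀ i ∈ I, x i ≠ 0) →
      (∫ z in (UU (g 0) ρ)ᶜ, ‖∑ i ∈ I, a i * (x i / (g 0 (x i) - x i * z))‖ ^ 2) =
      ∫ z in (UU (g 0) ρ)ᶜ, ‖∑ i ∈ I, a i / (ps g 0 (x i) - z)‖ ^ 2 := by
    intro ι I a x hx0
    apply setIntegral_congr_fun hmeas
    intro z _
    simp only
    congr 2
    apply Finset.sum_congr rfl
    intro i hi
    have h1 := hx0 i hi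
    have h2 : ps g 0 (x i) - z = (g 0 (x i) - x i * z) / x i := by
      unfold ps
      field_simp
    rw [h2, div_div_eq_mul_div]
    ring
  have l1 := tendsto_Mf hρ hρR.le hg0 I a x hx
  have l2 := tendsto_Mf hρ hρR.le hg0 K b y hy
  rw [hint I a x hx0] at l1
  have hint2 : (∫ z in (UU (g 0) ρ)ᶜ, ‖∑ i ∈ K, b i * (y i / (g 0 (y i) - y i * z))‖ ^ 2) =
      ∫ z in (UU (g 0) ρ)ᶜ, ‖∑ i ∈ K, b i / (ps g 0 (y i) - z)‖ ^ 2 := by
    apply setIntegral_congr_fun hmeas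
    intro z _
    simp only
    congr 2
    apply Finset.sum_congr rfl
    intro i hi
    have h1 := hy0 i hi
    have h2 : ps g 0 (y i) - z = (g 0 (y i) - y i * z) / y i := by
      unfold ps
      field_simp
    rw [h2, div_div_eq_mul_div]
    ring
  rw [hint2] at l2
  -- the left hand side
  have hleft : ∀ N, ∑ j ∈ Finset.range N, ((j : ℂ) + 1) * wv K b y j *
      deriv (fun t => Bc g (wv I a x) N t j) 0 =
      ∑ i ∈ I, ∑ k ∈ K, a i * b k * ∑ p ∈ Finset.range N ×ˢ Finset.range N,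
        tt g (x i) (y k) p := by
    intro N
    have h1 : ∀ j, deriv (fun t => Bc g (wv I a x) N t j) 0 =
        ∑ n ∈ Finset.range N, wv I a x n * ch g n j := by
      intro j
      have h4 : ∀ n ∈ Finset.range N, HasDerivAt
          (fun t => wv I a x n * hb (pc (g t)) (n + 1) (n + 1 + (j + 1)))
          (wv I a x n * ch g n j) 0 := fun n _ =>
        (((hb_differentiableOn F.hol (n + 1) (n + 1 + (j + 1))).differentiableAt
          (isOpen_ball.mem_nhds h0)).hasDerivAt).const_mul _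
      exact (HasDerivAt.fun_sum h4).deriv
    simp only [h1]
    have h2 : ∀ j n : ℕ, ((j : ℂ) + 1) * wv K b y j * (wv I a x n * ch g n j) =
        ∑ i ∈ I, ∑ k ∈ K, a i * b k * tt g (x i) (y k) (n, j) := by
      intro j n
      unfold wv tt
      have e := succ_ne j
      have e3 : ((j : ℂ) + 1) * ∑ i ∈ K, b i * (y i ^ (j + 1) / (j + 1)) =
          ∑ i ∈ K, b i * y i ^ (j + 1) := by
        rw [Finset.mul_sum]
        apply Finset.sum_congr rfl
        intro i _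
        field_simp
      rw [e3, mul_comm (∑ i ∈ K, b i * y i ^ (j + 1)), mul_assoc, mul_comm (ch g n j),
        ← mul_assoc, Finset.sum_mul_sum, Finset.sum_mul]
      apply Finset.sum_congr rfl
      intro i _
      rw [Finset.sum_mul]
      apply Finset.sum_congr rfl
      intro k _
      ring
    simp only [Finset.mul_sum]
    simp only [h2]
    rw [Finset.sum_comm]
    rw [← Finset.sum_product']
    rw [Finset.sum_comm]
    apply Finset.sum_congr rfl
    intro i _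
    rw [Finset.sum_comm]
  have lL : Tendsto (fun N => ‖∑ j ∈ Finset.range N, ((j : ℂ) + 1) * wv K b y j *
      deriv (fun t => Bc g (wv I a x) N t j) 0‖ ^ 2) atTop
      (𝓝 (‖∑ i ∈ I, ∑ k ∈ K, a i * b k * dslope Vf (ps g 0 (y k)) (ps g 0 (x i))‖ ^ 2)) := by
    have h1 : ‖∑ i ∈ I, ∑ k ∈ K, a i * b k * dslope Vf (ps g 0 (y k)) (ps g 0 (x i))‖ =
        ‖∑ i ∈ I, ∑ k ∈ K, a i * b k * TT g (x i) (y k)‖ := by
      rw [← norm_neg, ← Finset.sum_neg_distrib]
      congr 1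
      apply Finset.sum_congr rfl
      intro i hi
      rw [← Finset.sum_neg_distrib]
      apply Finset.sum_congr rfl
      intro k hk
      rw [F.TT_eq hρ hρR hV1 hV2 (hx0 i hi) (hy0 k hk) (hx i hi) (hy k hk)]
      ring
    rw [h1]
    simp only [hleft]
    apply Tendsto.pow
    apply Tendsto.norm
    apply tendsto_finsetSum
    intro i hi
    apply tendsto_finsetSum
    intro k hk
    apply Tendsto.const_mul
    exact (F.summable_tt hρ hρR (hx i hi) (hy k hk)).hasSum.comp tendsto_squares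
  exact le_of_tendsto_of_tendsto' lL (l1.mul l2) fun N =>
    bilin hρ hρR F.ext F.hol (wv I a x) (wv K b y) N

end Pool.Agent.X151.MK
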