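import Mathlib

/-!
# The integral of the square of the Cauchy kernel over a set of given area
-/

set_option autoImplicit false

open Complex Topology Filter Metric MeasureTheory Set

namespace Pool.Agent.X151.MK

theorem radial_int {δ ρ : ℝ} (hδ : 0 < δ) (hδρ : δ ≤ ρ) :
    ∫ x : ℂ, (Icc δ ρ).indicator (fun y => (y ^ 2)⁻¹ - (ρ ^ 2)⁻¹) ‖x‖ =
      2 * Real.pi * (Real.log (ρ / δ) - (ρ ^ 2 - δ ^ 2) / (2 * ρ ^ 2)) := by
  have hρ : 0 < ρ := hδ.trans_le hδρ
  rw [integral_fun_norm_addHaar (volume : Measure ℂ)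
    ((Icc δ ρ).indicator (fun y => (y ^ 2)⁻¹ - (ρ ^ 2)⁻¹)), Complex.finrank_real_complex]
  have h1 : (volume : Measure ℂ).real (ball (0 : ℂ) 1) = Real.pi := by
    simp [Measure.real]
  have h2 : ∫ y in Ioi (0 : ℝ), y ^ (2 - 1) • (Icc δ ρ).indicator
      (fun y => (y ^ 2)⁻¹ - (ρ ^ 2)⁻¹) y =
      Real.log (ρ / δ) - (ρ ^ 2 - δ ^ 2) / (2 * ρ ^ 2) := by
    have h3 : (fun y : ℝ => y ^ (2 - 1) • (Icc δ ρ).indicator
        (fun y => (y ^ 2)⁻¹ - (ρ ^ 2)⁻¹) y) =
        (Icc δ ρ).indicator (fun y => y * ((y ^ 2)⁻¹ - (ρ ^ 2)⁻¹)) := by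
      funext y
      by_cases hy : y ∈ Icc δ ρ
      · rw [indicator_of_mem hy, indicator_of_mem hy, smul_eq_mul]
        norm_num
      · rw [indicator_of_notMem hy, indicator_of_notMem hy, smul_zero]
    rw [h3, setIntegral_indicator measurableSet_Icc]
    have h4 : Ioi (0 : ℝ) ∩ Icc δ ρ = Icc δ ρ := by
      apply inter_eq_right.mpr
      intro y hy
      exact hδ.trans_le hy.1
    rw [h4, integral_Icc_eq_integral_Ioc, ← intervalIntegral.integral_of_le hδρ]
    have h5 : ∀ y ∈ uIcc δ ρ, HasDerivAt (fun y => Real.log y - y ^ 2 / (2 * ρ ^ 2))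
        (y * ((y ^ 2)⁻¹ - (ρ ^ 2)⁻¹)) y := by
      intro y hy
      rw [uIcc_of_le hδρ] at hy
      have hy0 : 0 < y := hδ.trans_le hy.1
      have h6 := (Real.hasDerivAt_log hy0.ne').sub (((hasDerivAt_id y).pow 2).div_const (2 * ρ ^ 2))
      refine h6.congr_deriv ?_
      simp only [id]
      field_simp
      ring
    rw [intervalIntegral.integral_eq_sub_of_hasDerivAt h5]
    · rw [Real.log_div hρ.ne' hδ.ne']
      field_simp
      ring
    · apply ContinuousOn.intervalIntegrable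
      rw [uIcc_of_le hδρ]
      apply ContinuousOn.mul continuousOn_id
      apply ContinuousOn.sub _ continuousOn_const
      apply ContinuousOn.inv₀ (by fun_prop)
      intro y hy
      have hy0 : 0 < y := hδ.trans_le hy.1
      positivity
  rw [h1, h2]
  simp only [nsmul_eq_mul, smul_eq_mul, Nat.cast_ofNat]
  ring

/-- The bathtub principle for the square of the Cauchy kernel. -/
theorem log_bound {K : Set ℂ} (hK : MeasurableSet K) (hfin : volume K ≠ ⊤) {z : ℂ} {δ : ℝ}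
    (hδ : 0 < δ) (hsub : ∀ s ∈ K, δ ≤ ‖z - s‖) :
    ∫ s in K, (‖z - s‖ ^ 2)⁻¹ ≤
      Real.pi * Real.log (1 + volume.real K / (Real.pi * δ ^ 2)) := by
  have hpi := Real.pi_pos
  set A : ℝ := volume.real K with hA
  have hA0 : 0 ≤ A := measureReal_nonneg
  set ρ : ℝ := Real.sqrt (δ ^ 2 + A / Real.pi) with hρdef
  have hρ2 : ρ ^ 2 = δ ^ 2 + A / Real.pi := Real.sq_sqrt (by positivity)
  have hδρ : δ ≤ ρ := by
    apply Real.le_sqrt_of_sq_le
    have : 0 ≤ A / Real.pi := by positivity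
    linarith
  have hρ : 0 < ρ := hδ.trans_le hδρ
  set ψ : ℂ → ℝ := fun s => (‖z - s‖ ^ 2)⁻¹ - (ρ ^ 2)⁻¹ with hψ
  set Ann : Set ℂ := {s | ‖z - s‖ ∈ Icc δ ρ} with hAnn
  have hcn : Continuous fun s : ℂ => ‖z - s‖ := by fun_prop
  have hAc : IsClosed Ann := isClosed_Icc.preimage hcn
  have hAcomp : IsCompact Ann := by
    apply (isCompact_closedBall z ρ).of_isClosed_subset hAc
    intro s hs
    rw [mem_closedBall, dist_comm, dist_eq_norm]
    exact hs.2
  have hψA : ContinuousOn ψ Ann := by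
    apply ContinuousOn.sub _ continuousOn_const
    apply ContinuousOn.inv₀ (by fun_prop)
    intro s hs
    have : 0 < ‖z - s‖ := hδ.trans_le hs.1
    positivity
  have hiA : Integrable (Ann.indicator ψ) :=
    (integrable_indicator_iff hAc.measurableSet).mpr (hψA.integrableOn_compact hAcomp)
  have hmeas : Measurable fun s : ℂ => (‖z - s‖ ^ 2)⁻¹ := by fun_prop
  have hφK : IntegrableOn (fun s => (‖z - s‖ ^ 2)⁻¹) K := by
    apply Measure.integrableOn_of_bounded (M := (δ ^ 2)⁻¹) hfin hmeas.aestronglyMeasurable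
    rw [ae_restrict_iff' hK]
    refine Filter.Eventually.of_forall fun s hs => ?_
    have h1 := hsub s hs
    rw [Real.norm_eq_abs, abs_of_nonneg (by positivity)]
    gcongr
  have hcK : IntegrableOn (fun _ : ℂ => (ρ ^ 2)⁻¹) K := integrableOn_const hfin
  have hψK : IntegrableOn ψ K := hφK.sub hcK
  have hiK : Integrable (K.indicator ψ) := (integrable_indicator_iff hK).mpr hψK
  have hle : ∫ s in K, ψ s ≤ ∫ s, Ann.indicator ψ s := by
    rw [← integral_indicator hK]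
    apply integral_mono hiK hiA
    intro s
    by_cases hs : s ∈ K
    · rw [indicator_of_mem hs]
      by_cases hs2 : s ∈ Ann
      · rw [indicator_of_mem hs2]
      · rw [indicator_of_notMem hs2, hψ]
        simp only
        have h1 := hsub s hs
        have h2 : ρ < ‖z - s‖ := by
          by_contra h
          exact hs2 ⟨h1, not_lt.mp h⟩
        have h3 : (‖z - s‖ ^ 2)⁻¹ ≤ (ρ ^ 2)⁻¹ := by gcongr
        linarith
    · rw [indicator_of_notMem hs]
      by_cases hs2 : s ∈ Ann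
      · rw [indicator_of_mem hs2, hψ]
        simp only
        have h1 : 0 < ‖z - s‖ := hδ.trans_le hs2.1
        have h3 : (ρ ^ 2)⁻¹ ≤ (‖z - s‖ ^ 2)⁻¹ := by
          have := hs2.2
          gcongr
        linarith
      · rw [indicator_of_notMem hs2]
  have hrad : ∫ s, Ann.indicator ψ s =
      2 * Real.pi * (Real.log (ρ / δ) - (ρ ^ 2 - δ ^ 2) / (2 * ρ ^ 2)) := by
    rw [← radial_int hδ hδρ, ← integral_sub_left_eq_self
      (fun x : ℂ => (Icc δ ρ).indicator (fun y => (y ^ 2)⁻¹ - (ρ ^ 2)⁻¹) ‖x‖) volume z]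
    congr 1
  have hsplit : ∫ s in K, (‖z - s‖ ^ 2)⁻¹ = (∫ s in K, ψ s) + (ρ ^ 2)⁻¹ * A := by
    have h1 : ∫ s in K, ψ s = (∫ s in K, (‖z - s‖ ^ 2)⁻¹) - ∫ _ in K, (ρ ^ 2)⁻¹ :=
      integral_sub hφK hcK
    rw [h1, setIntegral_const, smul_eq_mul, hA]
    ring
  have hlog : Real.log (1 + A / (Real.pi * δ ^ 2)) = 2 * Real.log (ρ / δ) := by
    have h1 : 1 + A / (Real.pi * δ ^ 2) = (ρ / δ) ^ 2 := by
      rw [div_pow, hρ2]
      field_simp
    rw [h1, Real.log_pow]
    norm_num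
  rw [hsplit, hlog]
  have h2 : (∫ s in K, ψ s) ≤
      2 * Real.pi * (Real.log (ρ / δ) - (ρ ^ 2 - δ ^ 2) / (2 * ρ ^ 2)) := hle.trans_eq hrad
  have h3 : A = Real.pi * (ρ ^ 2 - δ ^ 2) := by
    rw [hρ2]
    field_simp
    ring
  have h4 : 2 * Real.pi * (Real.log (ρ / δ) - (ρ ^ 2 - δ ^ 2) / (2 * ρ ^ 2)) +
      (ρ ^ 2)⁻¹ * A = Real.pi * (2 * Real.log (ρ / δ)) := by
    rw [h3]
    field_simp
    ring
  linarith

end Pool.Agent.X151.MK
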